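import Pool.Agent.Helper227.ENJ.Defs

set_option autoImplicit false

open FirstOrder FirstOrder.Language


namespace Pool.Agent.Helper227.EN



/-- meaning of the level `1` bit coding `⟨k, u⟩` -/
theorem E_col {M : Type} [LA.Structure M] (b : ℕ → M) (n k : ℕ) (u : List Bool) :
    E (n + 1) b (2 * Nat.pair k (Encodable.encode u) + 1) = true ↔
      ∃ b' : ℕ → M, Function.Injective b' ∧ (∀ i < k, b' i = b i) ∧ pre (E n b') u.length = u := by
  have h : E (n + 1) b = join (E n b) (fun z => open Classical in decide
      (∃ u : List Bool, (Encodable.decode (Nat.unpair z).2 : Option (List Bool)) = some u ∧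
        ∃ b' : ℕ → M, Function.Injective b' ∧ (∀ i < (Nat.unpair z).1, b' i = b i) ∧
          pre (E n b') u.length = u)) := rfl
  rw [h, join_odd]
  simp only [Nat.unpair_pair, Encodable.encodek, decide_eq_true_eq]
  constructor
  · rintro ⟨v, hv, hb⟩
    obtain rfl : u = v := Option.some.inj hv
    exact hb
  · intro hb
    exact ⟨u, rfl, hb⟩
end Pool.Agent.Helper227.EN
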