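import Pool.Agent.Helper227.ENJ.Defs

set_option autoImplicit false

open FirstOrder FirstOrder.Language


namespace Pool.Agent.Helper227.EN



/-- level `1` bits inside level `n + 1` -/
theorem E_low {M : Type} [LA.Structure M] (b : ℕ → M) (n z : ℕ) :
    E (n + 1) b (2 ^ n * z) = E 1 b z := by
  induction n with
  | zero => simp
  | succ n ih =>
    rw [← ih]
    have h1 : 2 ^ (n + 1) * z = 2 * (2 ^ n * z) := by ring
    rw [h1]
    exact join_even _ _ _

end Pool.Agent.Helper227.EN
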