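import Pool.Agent.Helper227.ENJ.Defs

set_option autoImplicit false

open FirstOrder FirstOrder.Language


namespace Pool.Agent.Helper227.EN



theorem Pos_mono (n k k' : ℕ) (hk : k ≤ k') : ∀ z, Pos n k z → Pos n k' z := by
  induction n with
  | zero =>
    intro z h
    have h1 : z < k := h
    show z < k'
    omega
  | succ n ih =>
    intro z h
    rcases h with ⟨h1, h2⟩ | ⟨h1, h2⟩
    · exact Or.inl ⟨h1, ih _ h2⟩
    · exact Or.inr ⟨h1, h2.trans hk⟩

/-- agreement goes down in the level and in the number of elements -/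
theorem agree_down {M : Type} [LA.Structure M] (b b' : ℕ → M) (n n' k k' : ℕ) (hn : n ≤ n')
    (hk : k ≤ k') (h : ∀ z, Pos n' k' z → E n' b z = E n' b' z) :
    ∀ z, Pos n k z → E n b z = E n b' z := by
  obtain ⟨d, rfl⟩ := Nat.exists_eq_add_of_le hn
  clear hn
  induction d with
  | zero => exact fun z hz => h z (Pos_mono n k k' hk z hz)
  | succ d ih =>
    apply ih
    intro z hz
    have h1 : Pos (n + d + 1) k' (2 * z) := by
      left
      refine ⟨by omega, ?_⟩
      have h2 : 2 * z / 2 = z := by omega
      rw [h2]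
      exact hz
    have h3 := h (2 * z) h1
    have h4 : ∀ c : ℕ → M, E (n + d + 1) c (2 * z) = E (n + d) c z := fun c => by
      show join (E (n + d) c) _ (2 * z) = _
      rw [join_even]
    have h5 : E (n + d + 1) b (2 * z) = E (n + d + 1) b' (2 * z) := h3
    rw [h4, h4] at h5
    exact h5

end Pool.Agent.Helper227.EN
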