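import Pool.Agent.Helper227.ENJ.Defs

set_option autoImplicit false

open FirstOrder FirstOrder.Language


namespace Pool.Agent.Helper227.EN



theorem beta_unique {M : Type} [CommSemiring M] [LinearOrder M] [IsStrictOrderedRing M]
    [CanonicallyOrderedAdd M] (hd : ∀ x : M, x < 1 → x = 0) (a c i v w : M) (h1 : Beta a c i v) (h2 : Beta a c i w) : v = w := by
  obtain ⟨hv, q, hq⟩ := h1
  obtain ⟨hw, q', hq'⟩ := h2
  set m : M := 1 + (i + 1) * c with hm
  have aux : ∀ q q' v w : M, v < m → q * m + v = q' * m + w → ¬ q < q' := by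
    intro q q' v w hv he hlt
    obtain ⟨d, rfl⟩ := le_iff_exists_add.mp hlt.le
    have hd1 : 1 ≤ d := by
      by_contra h
      have h0 := hd d (not_le.mp h)
      rw [h0, add_zero] at hlt
      exact lt_irrefl _ hlt
    have e1 : v = d * m + w := by
      have : q * m + v = q * m + (d * m + w) := by rw [he]; ring
      exact add_left_cancel this
    have e2 : m ≤ d * m + w := by
      calc m = 1 * m := (one_mul m).symm
        _ ≤ d * m := mul_le_mul_of_nonneg_right hd1 zero_le
        _ ≤ d * m + w := le_self_add
    exact absurd (e1 ▸ hv) (not_lt.mpr e2)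
  have e : q * m + v = q' * m + w := by rw [← hq, ← hq']
  have e3 : q = q' := le_antisymm (not_lt.mp (aux q' q w v hw e.symm)) (not_lt.mp (aux q q' v w hv e))
  subst e3
  exact add_left_cancel e

end Pool.Agent.Helper227.EN
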