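import Pool.Agent.Helper227.ENJ.Defs

set_option autoImplicit false

open FirstOrder FirstOrder.Language


namespace Pool.Agent.Helper227.EN



theorem dfn_bool {M : Type} [LA.Structure M] :
    (∀ P : Prop, Dfn (fun _ : ℕ → M => P)) ∧
    (∀ R : (ℕ → M) → Prop, Dfn R → Dfn (fun x => ¬ R x)) ∧
    (∀ R S : (ℕ → M) → Prop, Dfn R → Dfn S → Dfn (fun x => R x ∧ S x)) ∧
    (∀ R S : (ℕ → M) → Prop, Dfn R → Dfn S → Dfn (fun x => R x ∨ S x)) ∧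
    (∀ R S : (ℕ → M) → Prop, Dfn R → Dfn S → Dfn (fun x => R x → S x)) ∧
    (∀ R S : (ℕ → M) → Prop, Dfn R → Dfn S → Dfn (fun x => (R x ↔ S x))) := by
  refine ⟨?_, ?_, ?_, ?_, ?_, ?_⟩
  · intro P
    by_cases hP : P
    · refine ⟨⊤, fun x => ?_⟩
      rw [Formula.realize_top]
      exact ⟨fun _ => hP, fun _ => trivial⟩
    · refine ⟨⊥, fun x => ?_⟩
      rw [Formula.realize_bot]
      exact ⟨fun h => h.elim, fun h => hP h⟩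
  · rintro R ⟨φ, hφ⟩
    exact ⟨φ.not, fun x => by rw [Formula.realize_not, hφ]⟩
  · rintro R S ⟨φ, hφ⟩ ⟨ψ, hψ⟩
    exact ⟨φ ⊓ ψ, fun x => by rw [Formula.realize_inf, hφ, hψ]⟩
  · rintro R S ⟨φ, hφ⟩ ⟨ψ, hψ⟩
    exact ⟨φ ⊔ ψ, fun x => by rw [Formula.realize_sup, hφ, hψ]⟩
  · rintro R S ⟨φ, hφ⟩ ⟨ψ, hψ⟩
    exact ⟨φ.imp ψ, fun x => by rw [Formula.realize_imp, hφ, hψ]⟩
  · rintro R S ⟨φ, hφ⟩ ⟨ψ, hψ⟩
    exact ⟨φ.iff ψ, fun x => by rw [Formula.realize_iff, hφ, hψ]⟩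

end Pool.Agent.Helper227.EN
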