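import Pool.Agent.Helper227.ENJ.Defs
import Pool.Agent.Helper227.ENJ.P_dfn_bool
import Pool.Agent.Helper227.ENJ.P_dfn_ex
import Pool.Agent.Helper227.ENJ.P_trm_ops

set_option autoImplicit false

open FirstOrder FirstOrder.Language


namespace Pool.Agent.Helper227.EN



theorem dfn_beta {M : Type} [CommSemiring M] [LinearOrder M] [LA.Structure M] (hc : Compat M) :
    Dfn (fun x : ℕ → M => Beta (x 0) (x 1) (x 2) (x 3)) := by
  obtain ⟨-, -, band, -⟩ := dfn_bool (M := M)
  obtain ⟨tv, tn, ta, tm, te, tl, -⟩ := trm_ops hc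
  have t1' : Trm (fun _ : ℕ → M => (1 : M)) := by
    have := tn 1
    simpa only [Nat.cast_one] using this
  have td : Trm (fun x : ℕ → M => 1 + (x 2 + 1) * x 1) :=
    ta _ _ t1' (tm _ _ (ta _ _ (tv 2) t1') (tv 1))
  have h1 : Dfn (fun x : ℕ → M => x 3 < 1 + (x 2 + 1) * x 1) := tl _ _ (tv 3) td
  have h2 : Dfn (fun x : ℕ → M => ∃ q, x 0 = q * (1 + (x 2 + 1) * x 1) + x 3) := by
    apply dfn_ex (fun x q => x 0 = q * (1 + (x 2 + 1) * x 1) + x 3) 4
    · intro x y v
      rw [Function.update_of_ne (by decide), Function.update_of_ne (by decide),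
        Function.update_of_ne (by decide), Function.update_of_ne (by decide)]
    · exact te _ _ (tv 0) (ta _ _ (tm _ _ (tv 4) td) (tv 3))
  exact band _ _ h1 h2

end Pool.Agent.Helper227.EN
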