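import Pool.Agent.Helper227.ENJ.Defs

set_option autoImplicit false

open FirstOrder FirstOrder.Language


namespace Pool.Agent.Helper227.EN



/-- substitution of terms for variables -/
theorem dfn_subst {M : Type} [LA.Structure M] (R : (ℕ → M) → Prop) (h : Dfn R)
    (f : ℕ → (ℕ → M) → M) (hf : ∀ i, Trm (f i)) : Dfn (fun x => R (fun i => f i x)) := by
  obtain ⟨φ, hφ⟩ := h
  choose t ht using hf
  refine ⟨BoundedFormula.subst φ t, fun x => ?_⟩
  have h1 : (BoundedFormula.subst φ t).Realize x default ↔
      BoundedFormula.Realize φ (fun a => (t a).realize x) default := BoundedFormula.realize_subst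
  have h2 : (fun a => (t a).realize x) = fun i => f i x := funext fun i => ht i x
  rw [h2] at h1
  exact h1.trans (hφ _)

end Pool.Agent.Helper227.EN
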