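import Pool.Agent.Helper227.ENJ.Defs
import Pool.Agent.Helper227.ENJ.P_E_col

set_option autoImplicit false

open FirstOrder FirstOrder.Language


namespace Pool.Agent.Helper227.EN



/-- `Q` only depends on the first `N` bits of the level `n` type -/
def Dep {M : Type} [LA.Structure M] (n N : ℕ) (Q : (ℕ → M) → Prop) : Prop :=
  ∀ b b' : ℕ → M, Function.Injective b → Function.Injective b' →
    (∀ z < N, E n b z = E n b' z) → (Q b ↔ Q b')

theorem pre_eq_iff_aux (X Y : ℕ → Bool) (N : ℕ) : pre X N = pre Y N ↔ ∀ z < N, X z = Y z := by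
  unfold pre
  rw [List.map_inj_left]
  simp only [List.mem_range]

theorem edef_iff_dep {M : Type} [LA.Structure M] (Q : (ℕ → M) → Prop) :
    EDef Q ↔ ∃ n N, Dep n N Q := by
  constructor
  · rintro ⟨n, N, g, h⟩
    refine ⟨n, N, fun b b' hb hb' hz => ?_⟩
    rw [h b hb, h b' hb', (pre_eq_iff_aux _ _ _).2 hz]
  · rintro ⟨n, N, h⟩
    refine ⟨n, N, fun u => ∃ b' : ℕ → M, Function.Injective b' ∧ pre (E n b') N = u ∧ Q b', ?_⟩
    intro b hb
    constructor
    · intro hQ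
      exact ⟨b, hb, rfl, hQ⟩
    · rintro ⟨b', hb', he, hQ⟩
      exact (h b' b hb' hb ((pre_eq_iff_aux _ _ _).1 he)).1 hQ

theorem Dep.mono {M : Type} [LA.Structure M] {n N N' : ℕ} {Q : (ℕ → M) → Prop}
    (h : Dep n N Q) (hN : N ≤ N') : Dep n N' Q :=
  fun b b' hb hb' hz => h b b' hb hb' fun z hz' => hz z (lt_of_lt_of_le hz' hN)

theorem E_even_aux {M : Type} [LA.Structure M] (n : ℕ) (b : ℕ → M) (z : ℕ) :
    E (n + 1) b (2 * z) = E n b z := by
  simp only [E]
  exact join_even _ _ _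

theorem Dep.succ {M : Type} [LA.Structure M] {n N : ℕ} {Q : (ℕ → M) → Prop}
    (h : Dep n N Q) : Dep (n + 1) (2 * N) Q := by
  intro b b' hb hb' hz
  refine h b b' hb hb' fun z hz' => ?_
  have h1 := hz (2 * z) (by omega)
  rwa [E_even_aux, E_even_aux] at h1

theorem Dep.raise {M : Type} [LA.Structure M] {n N : ℕ} {Q : (ℕ → M) → Prop}
    (h : Dep n N Q) (m : ℕ) : ∃ N', Dep (n + m) N' Q := by
  induction m with
  | zero => exact ⟨N, h⟩
  | succ m ih =>
    obtain ⟨N', h'⟩ := ih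
    exact ⟨2 * N', h'.succ⟩

theorem edef_ops {M : Type} [LA.Structure M] :
    (∀ P : Prop, EDef (fun _ : ℕ → M => P)) ∧
    (∀ z, EDef (fun b : ℕ → M => Dg b z = true)) ∧
    (∀ Q : (ℕ → M) → Prop, EDef Q → EDef (fun b => ¬ Q b)) ∧
    (∀ Q R : (ℕ → M) → Prop, EDef Q → EDef R → EDef (fun b => Q b ∨ R b)) ∧
    (∀ (Q : (ℕ → M) → Prop) (k : ℕ), EDef Q → EDef (fun b => ∃ b' : ℕ → M,
      Function.Injective b' ∧ (∀ i < k, b' i = b i) ∧ Q b')) := by
  simp only [edef_iff_dep]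
  refine ⟨?_, ?_, ?_, ?_, ?_⟩
  · intro P
    exact ⟨0, 0, fun _ _ _ _ _ => Iff.rfl⟩
  · intro z
    refine ⟨0, z + 1, fun b b' _ _ h => ?_⟩
    have := h z (Nat.lt_succ_self z)
    simp only [E] at this
    show Dg b z = true ↔ Dg b' z = true
    rw [this]
  · rintro Q ⟨n, N, h⟩
    exact ⟨n, N, fun b b' hb hb' hz => not_congr (h b b' hb hb' hz)⟩
  · rintro Q R ⟨n, N, h⟩ ⟨n', N', h'⟩
    obtain ⟨N1, h1⟩ := h.raise n'
    obtain ⟨N2, h2⟩ := h'.raise n
    rw [Nat.add_comm n' n] at h2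
    exact ⟨n + n', max N1 N2, fun b b' hb hb' hz => or_congr
      ((h1.mono (le_max_left _ _)) b b' hb hb' hz) ((h2.mono (le_max_right _ _)) b b' hb hb' hz)⟩
  · rintro Q k ⟨n, N, h⟩
    have hfin : (Set.range fun u : {l : List Bool // l.length = N} =>
        2 * Nat.pair k (Encodable.encode u.1) + 1).Finite := by
      haveI : Finite {l : List Bool // l.length = N} := (List.finite_length_eq Bool N).to_subtype
      exact Set.finite_range _
    obtain ⟨K, hK⟩ := hfin.bddAbove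
    have key : ∀ b c : ℕ → M, (∀ z < K + 1, E (n + 1) b z = E (n + 1) c z) →
        (∃ b' : ℕ → M, Function.Injective b' ∧ (∀ i < k, b' i = b i) ∧ Q b') →
        ∃ b' : ℕ → M, Function.Injective b' ∧ (∀ i < k, b' i = c i) ∧ Q b' := by
      rintro b c hz ⟨b', hb', hbk, hQ⟩
      have hlen : (pre (E n b') N).length = N := length_pre _ _
      have h1 : E (n + 1) b (2 * Nat.pair k (Encodable.encode (pre (E n b') N)) + 1) = true :=
        (E_col b n k _).2 ⟨b', hb', hbk, by rw [hlen]⟩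
      have h2 : 2 * Nat.pair k (Encodable.encode (pre (E n b') N)) + 1 ≤ K :=
        hK ⟨⟨pre (E n b') N, hlen⟩, rfl⟩
      rw [hz _ (Nat.lt_succ_of_le h2)] at h1
      obtain ⟨c', hc', hck, hcp⟩ := (E_col c n k _).1 h1
      rw [hlen] at hcp
      exact ⟨c', hc', hck, (h c' b' hc' hb' ((pre_eq_iff_aux _ _ _).1 hcp)).2 hQ⟩
    exact ⟨n + 1, K + 1, fun b c _ _ hz => ⟨key b c hz, key c b fun z hz' => (hz z hz').symm⟩⟩

end Pool.Agent.Helper227.EN
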