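import Pool.Agent.Helper227.ENJ.Defs

set_option autoImplicit false

open FirstOrder FirstOrder.Language


namespace Pool.Agent.Helper227.EN



/-- an injective sequence can be changed from position `k` on so that the value at `k` is a given
element not among the first `k` ones -/
theorem inj_put {M : Type} (b : ℕ → M) (hb : Function.Injective b) (k : ℕ) (x : M)
    (hx : ∀ i < k, b i ≠ x) :
    ∃ g : ℕ → M, Function.Injective g ∧ (∀ i < k, g i = b i) ∧ g k = x := by
  by_cases h : ∃ j, b j = x
  · obtain ⟨j, hj⟩ := h
    have hjk : k ≤ j := by
      by_contra hcon
      exact hx j (not_le.1 hcon) hj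
    refine ⟨b ∘ Equiv.swap k j, hb.comp (Equiv.swap k j).injective, fun i hi => ?_, ?_⟩
    · rw [Function.comp_apply, Equiv.swap_apply_of_ne_of_ne (by omega) (by omega)]
    · rw [Function.comp_apply, Equiv.swap_apply_left, hj]
  · have hx' : ∀ j, b j ≠ x := fun j hj => h ⟨j, hj⟩
    refine ⟨Function.update b k x, ?_, fun i hi => ?_, ?_⟩
    · intro i j hij
      by_cases hi : i = k
      · by_cases hj : j = k
        · rw [hi, hj]
        · rw [hi, Function.update_self, Function.update_of_ne hj] at hij
          exact absurd hij.symm (hx' j)
      · by_cases hj : j = k
        · rw [hj, Function.update_self, Function.update_of_ne hi] at hij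
          exact absurd hij (hx' i)
        · rw [Function.update_of_ne hi, Function.update_of_ne hj] at hij
          exact hb hij
    · rw [Function.update_of_ne (by omega)]
    · rw [Function.update_self]

end Pool.Agent.Helper227.EN
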