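import Pool.Agent.Helper227.ENJ.Defs
import Pool.Agent.Helper227.ENJ.P_inj_put
import Pool.Agent.Helper227.ENJ.P_edef_ops

set_option autoImplicit false

open FirstOrder FirstOrder.Language


namespace Pool.Agent.Helper227.EN



theorem edef_exval_congr {M : Type} [LA.Structure M] {Q R : (ℕ → M) → Prop}
    (h : ∀ b, Function.Injective b → (Q b ↔ R b)) (hQ : EDef Q) : EDef R := by
  obtain ⟨n, N, g, hg⟩ := hQ
  exact ⟨n, N, g, fun b hb => (h b hb).symm.trans (hg b hb)⟩

theorem edef_exval_fin {M : Type} [LA.Structure M] (Q : (ℕ → M) → M → Prop)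
    (h : ∀ j, EDef (fun b : ℕ → M => Q b (b j))) (n : ℕ) :
    EDef (fun b : ℕ → M => ∃ i, i < n ∧ Q b (b i)) := by
  induction n with
  | zero =>
    refine edef_exval_congr ?_ (edef_ops.1 False)
    intro b _
    simp
  | succ n ih =>
    refine edef_exval_congr ?_ (edef_ops.2.2.2.1 _ _ ih (h n))
    intro b _
    constructor
    · rintro (⟨i, hi, hq⟩ | hq)
      · exact ⟨i, by omega, hq⟩
      · exact ⟨n, by omega, hq⟩
    · rintro ⟨i, hi, hq⟩
      by_cases hin : i < n
      · exact Or.inl ⟨i, hin, hq⟩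
      · have : i = n := by omega
        subst this
        exact Or.inr hq

/-- quantification over elements -/
theorem edef_exval {M : Type} [LA.Structure M] (Q : (ℕ → M) → M → Prop) (k : ℕ)
    (hk : ∀ b b' : ℕ → M, (∀ i < k, b' i = b i) → ∀ x, Q b x ↔ Q b' x)
    (h : ∀ j, EDef (fun b : ℕ → M => Q b (b j))) : EDef (fun b : ℕ → M => ∃ x, Q b x) := by
  refine edef_exval_congr ?_ (edef_ops.2.2.2.1 _ _ (edef_exval_fin Q h k)
    (edef_ops.2.2.2.2 _ k (h k)))
  intro b hb
  constructor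
  · rintro (⟨i, _, hq⟩ | ⟨b', _, hb', hq⟩)
    · exact ⟨b i, hq⟩
    · exact ⟨b' k, (hk b b' hb' (b' k)).2 hq⟩
  · rintro ⟨x, hx⟩
    by_cases hex : ∃ i, i < k ∧ b i = x
    · obtain ⟨i, hi, rfl⟩ := hex
      exact Or.inl ⟨i, hi, hx⟩
    · push Not at hex
      obtain ⟨g, hg, hgb, hgk⟩ := inj_put b hb k x hex
      refine Or.inr ⟨g, hg, hgb, ?_⟩
      show Q g (g k)
      rw [hgk]
      exact (hk b g hgb x).1 hx

end Pool.Agent.Helper227.EN
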