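import Pool.Agent.Helper227.ENJ.Defs
import Pool.Agent.Helper227.ENJ.P_edef_ops
import Pool.Agent.Helper227.ENJ.P_edef_exval

set_option autoImplicit false

open FirstOrder FirstOrder.Language


namespace Pool.Agent.Helper227.EN



theorem h170_edef_congr {M : Type} [LA.Structure M] {Q R : (ℕ → M) → Prop} (hQ : EDef Q)
    (h : ∀ b : ℕ → M, Function.Injective b → (Q b ↔ R b)) : EDef R := by
  obtain ⟨n, N, g, hg⟩ := hQ
  exact ⟨n, N, g, fun b hb => (h b hb).symm.trans (hg b hb)⟩

theorem h170_edef_and {M : Type} [LA.Structure M] {Q R : (ℕ → M) → Prop} (hQ : EDef Q) (hR : EDef R) :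
    EDef (fun b => Q b ∧ R b) := by
  obtain ⟨-, -, hn, ho, -⟩ := edef_ops (M := M)
  refine h170_edef_congr (hn _ (ho _ _ (hn _ hQ) (hn _ hR))) fun b _ => ?_
  constructor
  · intro h
    by_contra h2
    apply h
    by_cases hq : Q b
    · exact Or.inr fun hr => h2 ⟨hq, hr⟩
    · exact Or.inl hq
  · rintro ⟨hq, hr⟩ (h | h)
    · exact h hq
    · exact h hr

theorem h170_Dg_3 {M : Type} [LA.Structure M] (b : ℕ → M) (j : ℕ) :
    Dg b (cd 3 j 0 0) = true ↔ (Structure.funMap (L := LA) AF.zero ![] : M) = b j := by
  simp only [Dg, cd, Nat.unpair_pair]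
  norm_num

theorem h170_Dg_4 {M : Type} [LA.Structure M] (b : ℕ → M) (j : ℕ) :
    Dg b (cd 4 j 0 0) = true ↔ (Structure.funMap (L := LA) AF.one ![] : M) = b j := by
  simp only [Dg, cd, Nat.unpair_pair]
  norm_num

theorem h170_Dg_0 {M : Type} [LA.Structure M] (b : ℕ → M) (i j l : ℕ) :
    Dg b (cd 0 i j l) = true ↔ (Structure.funMap (L := LA) AF.add ![b i, b j] : M) = b l := by
  simp only [Dg, cd, Nat.unpair_pair]
  norm_num

theorem h170_Dg_1 {M : Type} [LA.Structure M] (b : ℕ → M) (i j l : ℕ) :
    Dg b (cd 1 i j l) = true ↔ (Structure.funMap (L := LA) AF.mul ![b i, b j] : M) = b l := by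
  simp only [Dg, cd, Nat.unpair_pair]
  norm_num

/-- the binary step -/
theorem h170_bin {M : Type} [LA.Structure M] {m : ℕ} (op : M → M → M) (c : ℕ → ℕ → ℕ → ℕ)
    (hop : ∀ (b : ℕ → M) (i j l : ℕ), Dg b (c i j l) = true ↔ op (b i) (b j) = b l)
    (r0 r1 : (ℕ → M) → M) (h : Fin m → ℕ)
    (hr0 : ∀ b b' : ℕ → M, (∀ i, b' (h i) = b (h i)) → r0 b' = r0 b)
    (hr1 : ∀ b b' : ℕ → M, (∀ i, b' (h i) = b (h i)) → r1 b' = r1 b)
    (e0 : ∀ j, EDef (fun b : ℕ → M => r0 b = b j)) (e1 : ∀ j, EDef (fun b : ℕ → M => r1 b = b j)) (j : ℕ) :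
    EDef (fun b : ℕ → M => op (r0 b) (r1 b) = b j) := by
  obtain ⟨-, hdg, -, -, -⟩ := edef_ops (M := M)
  obtain ⟨k, hk⟩ : ∃ k, k = (∑ i, h i) + j + 1 := ⟨_, rfl⟩
  have hhk : ∀ i, h i < k := by
    intro i
    have := Finset.single_le_sum (f := h) (fun _ _ => Nat.zero_le _) (Finset.mem_univ i)
    omega
  have hjk : j < k := by omega
  have h1 : EDef (fun b : ℕ → M => ∃ x, r0 b = x ∧ ∃ y, r1 b = y ∧ op x y = b j) := by
    refine edef_exval (fun b x => r0 b = x ∧ ∃ y, r1 b = y ∧ op x y = b j) k ?_ ?_
    · intro b b' hbb x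
      rw [hr0 b b' fun i => hbb _ (hhk i), hr1 b b' fun i => hbb _ (hhk i), hbb j hjk]
    · intro i1
      refine h170_edef_and (e0 i1) ?_
      refine edef_exval (fun b y => r1 b = y ∧ op (b i1) y = b j) (k + i1 + 1) ?_ ?_
      · intro b b' hbb y
        rw [hr1 b b' fun i => hbb _ (by have := hhk i; omega), hbb j (by omega), hbb i1 (by omega)]
      · intro i2
        refine h170_edef_and (e1 i2) ?_
        exact h170_edef_congr (hdg (c i1 i2 j)) fun b _ => hop b i1 i2 j
  refine h170_edef_congr h1 fun b _ => ?_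
  constructor
  · rintro ⟨x, rfl, y, rfl, h2⟩
    exact h2
  · intro h2
    exact ⟨_, rfl, _, rfl, h2⟩

theorem edef_term {M : Type} [LA.Structure M] {m : ℕ} (t : LA.Term (Empty ⊕ Fin m)) :
    ∀ (h : Fin m → ℕ) (j : ℕ),
      EDef (fun b : ℕ → M => t.realize (Sum.elim default (fun i => b (h i))) = b j) := by
  obtain ⟨hc, hdg, -, -, -⟩ := edef_ops (M := M)
  induction t with
  | var v =>
    intro h j
    rcases v with e | i
    · exact e.elim
    · refine h170_edef_congr (hc (h i = j)) fun b hb => ?_
      show h i = j ↔ b (h i) = b j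
      exact hb.eq_iff.symm
  | func f ts ih =>
    intro h j
    have hr : ∀ i, ∀ b b' : ℕ → M, (∀ i, b' (h i) = b (h i)) →
        (ts i).realize (Sum.elim default (fun i => b' (h i))) =
          (ts i).realize (Sum.elim default (fun i => b (h i))) := by
      intro i b b' hbb
      have : (fun i => b' (h i)) = fun i => b (h i) := funext hbb
      rw [this]
    cases f with
    | zero =>
      refine h170_edef_congr (hdg (cd 3 j 0 0)) fun b _ => ?_
      rw [h170_Dg_3]
      have h1 : (Term.func (L := LA) AF.zero ts).realize (Sum.elim default (fun i => b (h i)))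
          = (Structure.funMap (L := LA) AF.zero ![] : M) := by
        show Structure.funMap (L := LA) AF.zero _ = _
        congr 1
        exact Subsingleton.elim _ _
      rw [h1]
    | one =>
      refine h170_edef_congr (hdg (cd 4 j 0 0)) fun b _ => ?_
      rw [h170_Dg_4]
      have h1 : (Term.func (L := LA) AF.one ts).realize (Sum.elim default (fun i => b (h i)))
          = (Structure.funMap (L := LA) AF.one ![] : M) := by
        show Structure.funMap (L := LA) AF.one _ = _
        congr 1
        exact Subsingleton.elim _ _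
      rw [h1]
    | add =>
      have h2 := h170_bin (M := M) (fun x y => Structure.funMap (L := LA) AF.add ![x, y]) (cd 0)
        (fun b i j l => h170_Dg_0 b i j l) (fun b => (ts 0).realize (Sum.elim default (fun i => b (h i))))
        (fun b => (ts 1).realize (Sum.elim default (fun i => b (h i)))) h (hr 0) (hr 1)
        (fun j => ih 0 h j) (fun j => ih 1 h j) j
      refine h170_edef_congr h2 fun b _ => ?_
      have h1 : (Term.func (L := LA) AF.add ts).realize (Sum.elim default (fun i => b (h i)))
          = (Structure.funMap (L := LA) AF.add ![(ts 0).realize (Sum.elim default (fun i => b (h i))),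
            (ts 1).realize (Sum.elim default (fun i => b (h i)))] : M) := by
        show Structure.funMap (L := LA) AF.add _ = _
        congr 1
        funext i
        fin_cases i <;> rfl
      rw [h1]
    | mul =>
      have h2 := h170_bin (M := M) (fun x y => Structure.funMap (L := LA) AF.mul ![x, y]) (cd 1)
        (fun b i j l => h170_Dg_1 b i j l) (fun b => (ts 0).realize (Sum.elim default (fun i => b (h i))))
        (fun b => (ts 1).realize (Sum.elim default (fun i => b (h i)))) h (hr 0) (hr 1)
        (fun j => ih 0 h j) (fun j => ih 1 h j) j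
      refine h170_edef_congr h2 fun b _ => ?_
      have h1 : (Term.func (L := LA) AF.mul ts).realize (Sum.elim default (fun i => b (h i)))
          = (Structure.funMap (L := LA) AF.mul ![(ts 0).realize (Sum.elim default (fun i => b (h i))),
            (ts 1).realize (Sum.elim default (fun i => b (h i)))] : M) := by
        show Structure.funMap (L := LA) AF.mul _ = _
        congr 1
        funext i
        fin_cases i <;> rfl
      rw [h1]

end Pool.Agent.Helper227.EN
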