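import Pool.Agent.Helper227.ENJ.Defs
import Pool.Agent.Helper227.ENJ.P_edef_ops
import Pool.Agent.Helper227.ENJ.P_edef_exval
import Pool.Agent.Helper227.ENJ.P_edef_term

set_option autoImplicit false

open FirstOrder FirstOrder.Language


namespace Pool.Agent.Helper227.EN



theorem edef_congr {M : Type} [LA.Structure M] {Q Q' : (ℕ → M) → Prop} (h : ∀ b, Q b ↔ Q' b)
    (hQ : EDef Q) : EDef Q' := by
  have : Q = Q' := funext fun b => propext (h b)
  rw [← this]; exact hQ

theorem edef_and {M : Type} [LA.Structure M] {Q R : (ℕ → M) → Prop} (hQ : EDef Q) (hR : EDef R) :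
    EDef (fun b => Q b ∧ R b) := by
  obtain ⟨-, -, hnot, hor, -⟩ := edef_ops (M := M)
  refine edef_congr (fun b => ?_) (hnot _ (hor _ _ (hnot _ hQ) (hnot _ hR)))
  rw [not_or, not_not, not_not]

theorem edef_bound {m : ℕ} (h : Fin m → ℕ) : ∃ k, ∀ i, h i < k := by
  refine ⟨Finset.univ.sup h + 1, fun i => ?_⟩
  have := Finset.le_sup (f := h) (Finset.mem_univ i)
  omega

theorem edef_lt {M : Type} [LA.Structure M] (j l : ℕ) :
    EDef (fun b : ℕ → M => Structure.RelMap (L := LA) AR.lt ![b j, b l]) := by
  obtain ⟨-, hD, -⟩ := edef_ops (M := M)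
  refine edef_congr (fun b => ?_) (hD (cd 2 j l 0))
  simp [Dg, cd]

/-- every first-order formula is decided by finitely many bits of some level -/
theorem edef_formula {M : Type} [LA.Structure M] {m : ℕ} (φ : LA.BoundedFormula Empty m) :
    ∀ h : Fin m → ℕ, EDef (fun b : ℕ → M => φ.Realize default (fun i => b (h i))) := by
  obtain ⟨hc, hD, hnot, hor, -⟩ := edef_ops (M := M)
  induction φ with
  | falsum => intro h; exact hc False
  | equal t₁ t₂ =>
    intro h
    obtain ⟨k, hk⟩ := edef_bound h
    have h1 := edef_exval (M := M) (fun b x => t₁.realize (Sum.elim default (fun i => b (h i))) = x ∧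
      t₂.realize (Sum.elim default (fun i => b (h i))) = x) k
      (by
        intro b b' hb x
        have e : (fun i => b' (h i)) = (fun i => b (h i)) := funext fun i => hb _ (hk i)
        rw [e])
      (fun j => edef_and (edef_term t₁ h j) (edef_term t₂ h j))
    refine edef_congr (fun b => ?_) h1
    show _ ↔ t₁.realize (Sum.elim default (fun i => b (h i))) = t₂.realize (Sum.elim default (fun i => b (h i)))
    constructor
    · rintro ⟨x, hx1, hx2⟩
      rw [hx1, hx2]
    · intro hx
      exact ⟨_, rfl, hx.symm⟩
  | rel R ts =>
    intro h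
    obtain ⟨k, hk⟩ := edef_bound h
    cases R with
    | lt =>
      have h1 := edef_exval (M := M) (fun b x => (ts 0).realize (Sum.elim default (fun i => b (h i))) = x ∧
        ∃ y, (ts 1).realize (Sum.elim default (fun i => b (h i))) = y ∧
          Structure.RelMap (L := LA) AR.lt ![x, y]) k
        (by
          intro b b' hb x
          have e : (fun i => b' (h i)) = (fun i => b (h i)) := funext fun i => hb _ (hk i)
          rw [e])
        (fun j => edef_and (edef_term (ts 0) h j) (by
          refine edef_exval (M := M) (fun b y => (ts 1).realize (Sum.elim default (fun i => b (h i))) = y ∧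
            Structure.RelMap (L := LA) AR.lt ![b j, y]) (max k (j + 1)) ?_ ?_
          · intro b b' hb x
            have e : (fun i => b' (h i)) = (fun i => b (h i)) := funext fun i =>
              hb _ (lt_of_lt_of_le (hk i) (le_max_left _ _))
            have e2 : b' j = b j := hb _ (lt_of_lt_of_le (Nat.lt_succ_self j) (le_max_right _ _))
            rw [e, e2]
          · intro l
            exact edef_and (edef_term (ts 1) h l) (edef_lt j l)))
      refine edef_congr (fun b => ?_) h1
      show _ ↔ Structure.RelMap (L := LA) AR.lt
        (fun i => (ts i).realize (Sum.elim default (fun i => b (h i))))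
      have e : (fun i => (ts i).realize (Sum.elim default (fun i => b (h i)))) =
          ![(ts 0).realize (Sum.elim default (fun i => b (h i))),
            (ts 1).realize (Sum.elim default (fun i => b (h i)))] := by
        funext i
        fin_cases i <;> rfl
      rw [e]
      constructor
      · rintro ⟨x, hx1, y, hy1, hxy⟩
        rw [hx1, hy1]
        exact hxy
      · intro hx
        exact ⟨_, rfl, _, rfl, hx⟩
  | imp φ ψ ih1 ih2 =>
    intro h
    refine edef_congr (fun b => ?_) (hor _ _ (hnot _ (ih1 h)) (ih2 h))
    rw [BoundedFormula.realize_imp]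
    exact imp_iff_not_or.symm
  | all φ ih =>
    intro h
    obtain ⟨k, hk⟩ := edef_bound h
    have h1 := edef_exval (M := M) (fun b x => ¬ φ.Realize default (Fin.snoc (fun i => b (h i)) x : Fin (_ + 1) → M)) k
      (by
        intro b b' hb x
        have e : (fun i => b' (h i)) = (fun i => b (h i)) := funext fun i => hb _ (hk i)
        rw [e])
      (by
        intro j
        refine edef_congr (fun b => ?_) (hnot _ (ih (Fin.snoc h j : Fin (_ + 1) → ℕ)))
        have e : (fun i => b ((Fin.snoc h j : Fin (_ + 1) → ℕ) i)) =
            (Fin.snoc (fun i => b (h i)) (b j) : Fin (_ + 1) → M) := by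
          have := Fin.comp_snoc b h j
          exact this
        rw [e])
    refine edef_congr (fun b => ?_) (hnot _ h1)
    rw [BoundedFormula.realize_all, not_exists]
    exact forall_congr' fun x => not_not

end Pool.Agent.Helper227.EN
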