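import Pool.Agent.Helper227.ENJ.Defs

set_option autoImplicit false

open FirstOrder FirstOrder.Language

namespace Pool.Agent.Helper227.EN

theorem pos_of_lt (n k z : ℕ) (h : z < k) : Pos n k z := by
  induction n generalizing z with
  | zero => exact h
  | succ n ih =>
    rcases Nat.mod_two_eq_zero_or_one z with h0 | h1
    · exact Or.inl ⟨h0, ih _ (by omega)⟩
    · refine Or.inr ⟨h1, ?_⟩
      have := Nat.unpair_left_le (z / 2)
      omega

end Pool.Agent.Helper227.EN
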