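import Pool.Agent.Helper227.ENJ.Defs
import Pool.Agent.Helper227.ENJ.P_pos_of_lt
import Pool.Agent.Helper227.ENJ.P_agree_down

set_option autoImplicit false

open FirstOrder FirstOrder.Language


namespace Pool.Agent.Helper227.EN



theorem edef_raise {M : Type} [LA.Structure M] {Q : (ℕ → M) → Prop} (h : EDef Q) :
    ∃ n0 N0, ∀ n ≥ n0, ∀ k ≥ N0, ∀ b b' : ℕ → M, Function.Injective b → Function.Injective b' →
      (∀ z, Pos n k z → E n b z = E n b' z) → (Q b ↔ Q b') := by
  obtain ⟨n0, N0, g, hg⟩ := h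
  refine ⟨n0, N0, ?_⟩
  intro n hn k hk b b' hb hb' hagree
  rw [hg b hb, hg b' hb']
  have hpre : pre (E n0 b) N0 = pre (E n0 b') N0 := by
    unfold pre
    apply List.map_congr_left
    intro z hz
    exact agree_down b b' n0 n N0 k hn hk hagree z (pos_of_lt n0 N0 z (List.mem_range.1 hz))
  rw [hpre]

end Pool.Agent.Helper227.EN
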