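import Pool.Agent.Helper227.ENJ.Defs

set_option autoImplicit false

open FirstOrder FirstOrder.Language


namespace Pool.Agent.Helper227.EN



theorem hs_step {M : Type} [CommSemiring M] [LinearOrder M] (Good : M → M → M → Prop) (I : M → Prop)
    (hG : ∀ a c k k', k' ≤ k → Good a c k → Good a c k') (hI : ∀ k k', I k → I k' → I (max k k'))
    (σ : List Bool) (h : ∀ k, I k → ∃ a c, Good a c k ∧
      ∀ i < σ.length, (Beta a c (i : M) 1 ↔ σ.getD i false = true)) :
    (∀ k, I k → ∃ a c, Good a c k ∧
      ∀ i < (σ ++ [false]).length, (Beta a c (i : M) 1 ↔ (σ ++ [false]).getD i false = true)) ∨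
    (∀ k, I k → ∃ a c, Good a c k ∧
      ∀ i < (σ ++ [true]).length, (Beta a c (i : M) 1 ↔ (σ ++ [true]).getD i false = true)) := by
  classical
  have hget : ∀ (b : Bool) (i : ℕ), i < σ.length →
      (σ ++ [b]).getD i false = σ.getD i false := by
    intro b i hi
    rw [List.getD_append _ _ _ _ hi]
  have hlast : ∀ b : Bool, (σ ++ [b]).getD σ.length false = b := by
    intro b
    rw [List.getD_append_right _ _ _ _ le_rfl]
    simp
  have hstep : ∀ (b : Bool) (a c : M),
      (∀ i < σ.length, (Beta a c (i : M) 1 ↔ σ.getD i false = true)) →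
      (Beta a c ((σ.length : ℕ) : M) 1 ↔ b = true) →
      ∀ i < (σ ++ [b]).length, (Beta a c (i : M) 1 ↔ (σ ++ [b]).getD i false = true) := by
    intro b a c h1 h2 i hi
    rw [List.length_append, List.length_singleton] at hi
    rcases Nat.lt_succ_iff_lt_or_eq.mp hi with h3 | h3
    · rw [hget b i h3]
      exact h1 i h3
    · rw [h3, hlast b]
      exact h2
  by_contra hcon
  rw [not_or] at hcon
  obtain ⟨h1, h2⟩ := hcon
  rw [not_forall] at h1 h2
  obtain ⟨k, hk⟩ := h1
  obtain ⟨k', hk'⟩ := h2
  rw [Classical.not_imp] at hk hk'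
  obtain ⟨a, c, hg, hbits⟩ := h (max k k') (hI k k' hk.1 hk'.1)
  by_cases hb : Beta a c ((σ.length : ℕ) : M) 1
  · apply hk'.2
    exact ⟨a, c, hG a c _ _ (le_max_right k k') hg,
      hstep true a c hbits (by simpa using hb)⟩
  · apply hk.2
    exact ⟨a, c, hG a c _ _ (le_max_left k k') hg,
      hstep false a c hbits (by simpa using hb)⟩

end Pool.Agent.Helper227.EN
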