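import Pool.Agent.Helper227.ENJ.Defs

set_option autoImplicit false

open FirstOrder FirstOrder.Language


namespace Pool.Agent.Helper227.EN



/-- a finite injective prefix extends to an injective sequence -/
theorem inj_extend {M : Type} [Infinite M] (f : ℕ → M) (K : ℕ)
    (h : ∀ i < K, ∀ j < K, f i = f j → i = j) :
    ∃ g : ℕ → M, Function.Injective g ∧ ∀ i < K, g i = f i := by
  classical
  have hfin : (f '' Set.Iio K).Finite := (Set.finite_Iio K).image f
  have hinf : ((f '' Set.Iio K)ᶜ).Infinite := hfin.infinite_compl
  let e := hinf.natEmbedding
  have he : ∀ n, ∀ i < K, (e n : M) ≠ f i := by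
    intro n i hi heq
    exact (e n).2 ⟨i, hi, heq.symm⟩
  refine ⟨fun i => if i < K then f i else (e (i - K) : M), ?_, fun i hi => if_pos hi⟩
  intro i j hij
  by_cases hi : i < K
  · by_cases hj : j < K
    · simp only [hi, hj, if_true] at hij
      exact h i hi j hj hij
    · simp only [hi, hj, if_true, if_false] at hij
      exact absurd hij.symm (he _ i hi)
  · by_cases hj : j < K
    · simp only [hi, hj, if_true, if_false] at hij
      exact absurd hij (he _ j hj)
    · simp only [hi, hj, if_false] at hij
      have := e.injective (Subtype.ext hij)
      omega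

end Pool.Agent.Helper227.EN
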