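import Pool.Agent.Helper227.ENJ.Defs

set_option autoImplicit false

open FirstOrder FirstOrder.Language


namespace Pool.Agent.Helper227.EN



theorem j17547_fun2 {M : Type} [LA.Structure M] (f : LA.Functions 2) (a b : ℕ → M) :
    Structure.funMap f ![(a : UP M), (b : UP M)] =
      ((fun N => Structure.funMap f ![a N, b N] : ℕ → M) : UP M) := by
  have h := Ultraproduct.funMap_cast (u := Filter.hyperfilter ℕ) (M := fun _ : ℕ => M) f ![a, b]
  have h1 : (fun i => ((![a, b] i : ℕ → M) : UP M)) = ![(a : UP M), (b : UP M)] := by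
    funext i; fin_cases i <;> rfl
  have h2 : (fun N => Structure.funMap f fun i => (![a, b] i : ℕ → M) N) =
      (fun N => Structure.funMap f ![a N, b N]) := by
    funext N
    congr 1
    funext i; fin_cases i <;> rfl
  rw [← h1, ← h2]
  exact h

theorem j17547_fun0 {M : Type} [LA.Structure M] (f : LA.Functions 0) :
    Structure.funMap f ![] = ((fun _ => Structure.funMap f ![] : ℕ → M) : UP M) := by
  have h := Ultraproduct.funMap_cast (u := Filter.hyperfilter ℕ) (M := fun _ : ℕ => M) f
    (fun i : Fin 0 => i.elim0)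
  have h1 : (fun i : Fin 0 => ((i.elim0 : ℕ → M) : UP M)) = ![] := by
    funext i; exact i.elim0
  have h2 : (fun N : ℕ => Structure.funMap f fun i : Fin 0 => ((i.elim0 : ℕ → M)) N) =
      (fun _ => Structure.funMap f ![]) := by
    funext N
    congr 1
    funext i; exact i.elim0
  rw [← h1, ← h2]
  exact h

theorem j17547_rel2 {M : Type} [LA.Structure M] (r : LA.Relations 2) (a b : ℕ → M) :
    Structure.RelMap r ![(a : UP M), (b : UP M)] ↔
      ∀ᶠ N in (Filter.hyperfilter ℕ : Filter ℕ), Structure.RelMap r ![a N, b N] := by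
  have h1 : (fun i => ((![a, b] i : ℕ → M) : UP M)) = ![(a : UP M), (b : UP M)] := by
    funext i; fin_cases i <;> rfl
  have h2 : ∀ N, (Structure.RelMap r fun i => (![a, b] i : ℕ → M) N) ↔
      Structure.RelMap r ![a N, b N] := by
    intro N
    have : (fun i => (![a, b] i : ℕ → M) N) = ![a N, b N] := by
      funext i; fin_cases i <;> rfl
    rw [this]
  rw [← h1]
  refine Iff.trans ?_ (Filter.eventually_congr (Filter.Eventually.of_forall h2))
  exact relMap_quotient_mk' _ r (![a, b])

theorem j17547_eq {M : Type} (a b : ℕ → M) :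
    ((a : UP M) = (b : UP M)) ↔ ∀ᶠ N in (Filter.hyperfilter ℕ : Filter ℕ), a N = b N := by
  exact Quotient.eq''

theorem j17547_fun2_eq {M : Type} [LA.Structure M] (f : LA.Functions 2) (a b c : ℕ → M) :
    (Structure.funMap f ![(a : UP M), (b : UP M)] = (c : UP M)) ↔
      ∀ᶠ N in (Filter.hyperfilter ℕ : Filter ℕ), Structure.funMap f ![a N, b N] = c N := by
  rw [j17547_fun2, j17547_eq]

theorem j17547_fun0_eq {M : Type} [LA.Structure M] (f : LA.Functions 0) (c : ℕ → M) :
    (Structure.funMap f ![] = (c : UP M)) ↔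
      ∀ᶠ N in (Filter.hyperfilter ℕ : Filter ℕ), Structure.funMap f ![] = c N := by
  rw [j17547_fun0, j17547_eq]

theorem up_Dg {M : Type} [LA.Structure M] (β : ℕ → ℕ → M) (z : ℕ) :
    Dg (ups β) z = true ↔ ∀ᶠ N in (Filter.hyperfilter ℕ : Filter ℕ), Dg (β N) z = true := by
  have key : ∀ (P : Prop) (Q : ℕ → Prop) (i1 : Decidable P) (i2 : ∀ N, Decidable (Q N)),
      (P ↔ ∀ᶠ N in (Filter.hyperfilter ℕ : Filter ℕ), Q N) →
      ((@decide P i1 = true) ↔
        ∀ᶠ N in (Filter.hyperfilter ℕ : Filter ℕ), @decide (Q N) (i2 N) = true) := by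
    intro P Q i1 i2 h
    simp only [decide_eq_true_eq]
    exact h
  unfold Dg
  simp only []
  split_ifs with h0 h1 h2 h3 h4
  · apply key
    exact j17547_fun2_eq AF.add (fun N => β N _) (fun N => β N _) (fun N => β N _)
  · apply key
    exact j17547_fun2_eq AF.mul (fun N => β N _) (fun N => β N _) (fun N => β N _)
  · apply key
    exact j17547_rel2 AR.lt (fun N => β N _) (fun N => β N _)
  · apply key
    exact j17547_fun0_eq AF.zero (fun N => β N _)
  · apply key
    exact j17547_fun0_eq AF.one (fun N => β N _)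
  · simp only [Bool.false_eq_true, Filter.eventually_false_iff_eq_bot, false_iff]
    exact Filter.NeBot.ne inferInstance

end Pool.Agent.Helper227.EN
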