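import Pool.Agent.Helper227.ENJ.Defs

set_option autoImplicit false

open FirstOrder FirstOrder.Language


namespace Pool.Agent.Helper227.EN



theorem up_inj {M : Type} (β : ℕ → ℕ → M) (hβ : ∀ N, Function.Injective (β N)) :
    Function.Injective (ups β) := by
  intro i j hij
  have h1 : (fun N => β N i : ℕ → M) =ᶠ[((Filter.hyperfilter ℕ : Ultrafilter ℕ) : Filter ℕ)] (fun N => β N j) :=
    Quotient.eq''.1 hij
  obtain ⟨N, hN⟩ := h1.exists
  exact hβ N hN

end Pool.Agent.Helper227.EN
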