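import Pool.Agent.Helper227.ENJ.Defs
import Pool.Agent.Helper227.ENJ.P_up_inj
import Pool.Agent.Helper227.ENJ.P_up_Dg

set_option autoImplicit false

open FirstOrder FirstOrder.Language


namespace Pool.Agent.Helper227.EN



/-- Tarski–Vaught property of the range of `ups β` -/
theorem ups_tarski {M : Type} [LA.Structure M] [Nonempty M] (β : ℕ → ℕ → M)
    (hH : ∀ (m : ℕ) (φ : LA.BoundedFormula Empty (m + 1)) (f : Fin m → ℕ),
      (∃ s, ∀ t ≥ s, ¬ ∃ x : M, φ.Realize default (Fin.snoc (fun i => β t (f i)) x)) ∨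
      (∃ j s, ∀ t ≥ s, φ.Realize default (Fin.snoc (fun i => β t (f i)) (β t j))))
    (m : ℕ) (φ : LA.BoundedFormula Empty (m + 1)) (f : Fin m → ℕ) (a : UP M)
    (ha : φ.Realize default (Fin.snoc (fun i => ups β (f i)) a : Fin (m + 1) → UP M)) :
    ∃ j, φ.Realize default (Fin.snoc (fun i => ups β (f i)) (ups β j) : Fin (m + 1) → UP M) := by
  have key : ∀ α : ℕ → M,
      (φ.Realize default (Fin.snoc (fun i => ups β (f i)) ((α : ℕ → M) : UP M) :
        Fin (m + 1) → UP M) ↔
      ∀ᶠ N in (Filter.hyperfilter ℕ : Filter ℕ),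
        φ.Realize default (Fin.snoc (fun i => β N (f i)) (α N) : Fin (m + 1) → M)) := by
    intro α
    have h1 : (Fin.snoc (fun i => ups β (f i)) ((α : ℕ → M) : UP M) : Fin (m + 1) → UP M) =
        fun i => (((Fin.snoc (fun i N => β N (f i)) α : Fin (m + 1) → ℕ → M) i : ℕ → M) :
          UP M) := by
      funext i
      refine Fin.lastCases ?_ (fun i => ?_) i
      · exact (Fin.snoc_last (α := fun _ => UP M) _ _).trans
          (congrArg (fun γ : ℕ → M => (γ : UP M))
            (Fin.snoc_last (α := fun _ => ℕ → M) _ _).symm)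
      · exact (Fin.snoc_castSucc (α := fun _ => UP M) _ _ _).trans
          (congrArg (fun γ : ℕ → M => (γ : UP M))
            (Fin.snoc_castSucc (α := fun _ => ℕ → M) α (fun i N => β N (f i)) i).symm)
    have h2 : ∀ N : ℕ, (Fin.snoc (fun i => β N (f i)) (α N) : Fin (m + 1) → M) =
        fun i => (Fin.snoc (fun i N => β N (f i)) α : Fin (m + 1) → ℕ → M) i N := by
      intro N
      funext i
      refine Fin.lastCases ?_ (fun i => ?_) i
      · simp only [Fin.snoc_last]
      · simp only [Fin.snoc_castSucc]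
    rw [h1]
    simp only [h2]
    have h3 := Ultraproduct.boundedFormula_realize_cast (L := LA) (M := fun _ : ℕ => M)
      (u := Filter.hyperfilter ℕ) φ (default : Empty → ℕ → M)
      (Fin.snoc (fun i N => β N (f i)) α : Fin (m + 1) → ℕ → M)
    have h4 : (fun i : Empty => (((default : Empty → ℕ → M) i : ℕ → M) : UP M)) = default :=
      Subsingleton.elim _ _
    have h5 : ∀ N : ℕ, (fun i : Empty => (default : Empty → ℕ → M) i N) = default :=
      fun N => Subsingleton.elim _ _
    rw [h4] at h3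
    simp only [h5] at h3
    exact h3
  obtain ⟨α, rfl⟩ : ∃ α : ℕ → M, ((α : ℕ → M) : UP M) = a := Quotient.exists_rep a
  have ha' := (key α).1 ha
  rcases hH m φ f with ⟨s, hs⟩ | ⟨j, s, hs⟩
  · exfalso
    have h1 : ∀ᶠ N in (Filter.hyperfilter ℕ : Filter ℕ), s ≤ N :=
      Nat.hyperfilter_le_atTop (Filter.eventually_ge_atTop s)
    obtain ⟨N, hN1, hN2⟩ := (h1.and ha').exists
    exact hs N hN1 ⟨_, hN2⟩
  · refine ⟨j, ?_⟩
    have h1 : ∀ᶠ N in (Filter.hyperfilter ℕ : Filter ℕ), s ≤ N :=
      Nat.hyperfilter_le_atTop (Filter.eventually_ge_atTop s)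
    exact (key fun N => β N j).2 (h1.mono fun N hN => hs N hN)

/-- the final model -/
theorem limit_structure {M : Type} [LA.Structure M] [Infinite M] (β : ℕ → ℕ → M)
    (hβ : ∀ t, Function.Injective (β t))
    (hH : ∀ (m : ℕ) (φ : LA.BoundedFormula Empty (m + 1)) (f : Fin m → ℕ),
      (∃ s, ∀ t ≥ s, ¬ ∃ x : M, φ.Realize default (Fin.snoc (fun i => β t (f i)) x)) ∨
      (∃ j s, ∀ t ≥ s, φ.Realize default (Fin.snoc (fun i => β t (f i)) (β t j)))) :
    ∃ A : LA.Structure ℕ, (∀ T : LA.Theory, M ⊨ T → @FirstOrder.Language.Theory.Model LA ℕ A T) ∧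
      ∀ z, diag A z = true ↔ ∀ᶠ t in (Filter.hyperfilter ℕ : Filter ℕ), Dg (β t) z = true := by
  classical
  have hTV := ups_tarski β hH
  have hinj := up_inj β hβ
  -- closure under functions
  have hcl : ∀ {n : ℕ} (F : LA.Functions n) (x : Fin n → ℕ),
      ∃ j, ups β j = Structure.funMap F (fun i => ups β (x i)) := by
    intro n F x
    let φ : LA.BoundedFormula Empty (n + 1) :=
      Term.bdEqual (Term.var (Sum.inr (Fin.last n)))
        (Term.func F fun i => Term.var (Sum.inr (Fin.castSucc i)))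
    have hφ : ∀ y : UP M, φ.Realize default (Fin.snoc (fun i => ups β (x i)) y :
        Fin (n + 1) → UP M) ↔ y = Structure.funMap F (fun i => ups β (x i)) := by
      intro y
      simp only [φ, BoundedFormula.realize_bdEqual, Term.realize_var, Sum.elim_inr, Fin.snoc_last,
        Term.realize_func, Fin.snoc_castSucc]
    obtain ⟨j, hj⟩ := hTV n φ x _ ((hφ _).2 rfl)
    exact ⟨j, (hφ _).1 hj⟩
  choose g hg using @hcl
  let A : LA.Structure ℕ :=
    { funMap := fun {n} F x => g F x
      RelMap := fun {n} r x => Structure.RelMap r (fun i => ups β (x i)) }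
  have hAf : ∀ {n : ℕ} (F : LA.Functions n) (x : Fin n → ℕ),
      ups β (@Structure.funMap LA ℕ A n F x) = Structure.funMap F (fun i => ups β (x i)) :=
    fun F x => hg F x
  have hAr : ∀ {n : ℕ} (r : LA.Relations n) (x : Fin n → ℕ),
      @Structure.RelMap LA ℕ A n r x ↔ Structure.RelMap r (fun i => ups β (x i)) :=
    fun r x => Iff.rfl
  refine ⟨A, ?_, ?_⟩
  · intro T hT
    let _ := A
    let e : ℕ ↪[LA] UP M :=
      { toFun := ups β
        inj' := hinj
        map_fun' := fun F x => hAf F x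
        map_rel' := fun r x => (hAr r x).symm }
    have htv : ∀ (n : ℕ) (φ : LA.BoundedFormula Empty (n + 1)) (x : Fin n → ℕ) (a : UP M),
        φ.Realize default (Fin.snoc (e ∘ x) a : _ → UP M) →
          ∃ b : ℕ, φ.Realize default (Fin.snoc (e ∘ x) (e b) : _ → UP M) := by
      intro n φ x a h
      exact hTV n φ x a h
    have e' : ℕ ↪ₑ[LA] UP M := e.toElementaryEmbedding htv
    refine (e'.theory_model_iff T).2 ?_
    refine ⟨fun φ hφ => ?_⟩
    refine (Ultraproduct.sentence_realize (M := fun _ : ℕ => M) (u := Filter.hyperfilter ℕ) φ).2 ?_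
    exact Filter.Eventually.of_forall fun _ => hT.realize_of_mem φ hφ
  · intro z
    rw [← up_Dg]
    have h2 : ∀ i j : ℕ, (fun k : Fin 2 => ups β ((![i, j] : Fin 2 → ℕ) k)) =
        ![ups β i, ups β j] := by
      intro i j
      funext k
      fin_cases k <;> rfl
    have h0 : (fun k : Fin 0 => ups β ((![] : Fin 0 → ℕ) k)) = ![] := Subsingleton.elim _ _
    have hf2 : ∀ (F : LA.Functions 2) (i j l : ℕ), @Structure.funMap LA ℕ A 2 F ![i, j] = l ↔
        Structure.funMap F ![ups β i, ups β j] = ups β l := by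
      intro F i j l
      rw [← hinj.eq_iff, hAf, h2]
    have hf0 : ∀ (F : LA.Functions 0) (l : ℕ), @Structure.funMap LA ℕ A 0 F ![] = l ↔
        Structure.funMap F ![] = ups β l := by
      intro F l
      rw [← hinj.eq_iff, hAf, h0]
    have hr2 : ∀ (r : LA.Relations 2) (i j : ℕ), @Structure.RelMap LA ℕ A 2 r ![i, j] ↔
        Structure.RelMap r ![ups β i, ups β j] := by
      intro r i j
      rw [hAr, h2]
    have hD : diag A z = Dg (ups β) z := by
      unfold diag Dg
      refine if_congr Iff.rfl (decide_eq_decide.2 (hf2 AF.add _ _ _)) ?_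
      refine if_congr Iff.rfl (decide_eq_decide.2 (hf2 AF.mul _ _ _)) ?_
      refine if_congr Iff.rfl (decide_eq_decide.2 (hr2 AR.lt _ _)) ?_
      refine if_congr Iff.rfl (decide_eq_decide.2 (hf0 AF.zero _)) ?_
      exact if_congr Iff.rfl (decide_eq_decide.2 (hf0 AF.one _)) rfl
    rw [hD]

end Pool.Agent.Helper227.EN
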