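import Pool.Agent.Helper227.ENJ.Defs

set_option autoImplicit false

open FirstOrder FirstOrder.Language


namespace Pool.Agent.Helper227.EN



/-- elements below a standard number are standard -/
theorem std_below {M : Type} [CommSemiring M] [LinearOrder M] [IsStrictOrderedRing M]
    [CanonicallyOrderedAdd M] [LA.Structure M] (hc : Compat M) (n : ℕ) (x : M) (h : x ≤ (n : M)) :
    ∃ m : ℕ, m ≤ n ∧ x = (m : M) := by
  induction n generalizing x with
  | zero =>
    refine ⟨0, le_refl _, ?_⟩
    rw [Nat.cast_zero] at h ⊢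
    exact le_antisymm h (zero_le)
  | succ n ih =>
    by_cases h1 : x < 1
    · exact ⟨0, Nat.zero_le _, by rw [Nat.cast_zero]; exact hc.disc x h1⟩
    · obtain ⟨y, hy⟩ := exists_add_of_le (not_lt.mp h1)
      have h2 : y ≤ (n : M) := by
        rw [hy, Nat.cast_succ, add_comm (n : M) 1] at h
        exact le_of_add_le_add_left h
      obtain ⟨m, hm, hym⟩ := ih y h2
      exact ⟨m + 1, by omega, by rw [hy, hym, Nat.cast_succ, add_comm]⟩

end Pool.Agent.Helper227.EN
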