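import Pool.Agent.Helper227.ENJ.Defs
import Pool.Agent.Helper227.ENJ.P_dfn_bool
import Pool.Agent.Helper227.ENJ.P_dfn_ex
import Pool.Agent.Helper227.ENJ.P_dfn_all
import Pool.Agent.Helper227.ENJ.P_dfn_subst
import Pool.Agent.Helper227.ENJ.P_trm_ops
import Pool.Agent.Helper227.ENJ.P_std_below
import Pool.Agent.Helper227.ENJ.P_beta_unique
import Pool.Agent.Helper227.ENJ.P_beta_exists
import Pool.Agent.Helper227.ENJ.P_dfn_beta
import Pool.Agent.Helper227.ENJ.P_hs_step

set_option autoImplicit false

open FirstOrder FirstOrder.Language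


namespace Pool.Agent.Helper227.EN



theorem path_def_d1 {M : Type} [LA.Structure M] (R : M → Prop)
    (h : Dfn (fun x : ℕ → M => R (x 0))) (f : (ℕ → M) → M) (hf : Trm f) :
    Dfn (fun x => R (f x)) :=
  dfn_subst (fun x => R (x 0)) h (fun _ => f) (fun _ => hf)

theorem path_def_d3 {M : Type} [LA.Structure M] (R : M → M → M → Prop)
    (h : Dfn (fun x : ℕ → M => R (x 0) (x 1) (x 2))) (f g e : (ℕ → M) → M)
    (hf : Trm f) (hg : Trm g) (he : Trm e) :
    Dfn (fun x => R (f x) (g x) (e x)) :=
  dfn_subst (fun x => R (x 0) (x 1) (x 2)) h (fun i => if i = 0 then f else if i = 1 then g else e)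
    (by
      intro i
      split_ifs
      · exact hf
      · exact hg
      · exact he)

theorem path_def_beta {M : Type} [CommSemiring M] [LinearOrder M] [LA.Structure M]
    (hc : Compat M) (f g e u : (ℕ → M) → M)
    (hf : Trm f) (hg : Trm g) (he : Trm e) (hu : Trm u) :
    Dfn (fun x => Beta (f x) (g x) (e x) (u x)) :=
  dfn_subst (fun x => Beta (x 0) (x 1) (x 2) (x 3)) (dfn_beta hc)
    (fun i => if i = 0 then f else if i = 1 then g else if i = 2 then e else u)
    (by
      intro i
      split_ifs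
      · exact hf
      · exact hg
      · exact he
      · exact hu)

/-- the tree, for coded strings -/
def path_def_H {M : Type} [CommSemiring M] [LinearOrder M] (Good : M → M → M → Prop)
    (I : M → Prop) (a' c' j : M) : Prop :=
  ∀ k, I k → ∃ a c, Good a c k ∧ ∀ i, i < j → (Beta a c i 1 ↔ Beta a' c' i 1)

/-- leftmost strings -/
def path_def_LM {M : Type} [CommSemiring M] [LinearOrder M] (Good : M → M → M → Prop)
    (I : M → Prop) (a c j : M) : Prop :=
  path_def_H Good I a c j ∧ ∀ j0, j0 < j → Beta a c j0 1 → ¬ ∃ a' c',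
    (∀ i, i < j0 → (Beta a' c' i 1 ↔ Beta a c i 1)) ∧ ¬ Beta a' c' j0 1 ∧
      path_def_H Good I a' c' (j0 + 1)

theorem path_def_H_dfn {M : Type} [CommSemiring M] [LinearOrder M] [LA.Structure M]
    (hc : Compat M)
    (Good : M → M → M → Prop) (hGd : Dfn (fun x : ℕ → M => Good (x 0) (x 1) (x 2)))
    (I : M → Prop) (hId : Dfn (fun x : ℕ → M => I (x 0))) :
    Dfn (fun x : ℕ → M => path_def_H Good I (x 0) (x 1) (x 2)) := by
  obtain ⟨_, _, dand, _, dimp, diff⟩ := dfn_bool (M := M)
  obtain ⟨tv, tn, tadd, _, _, dlt, _⟩ := trm_ops hc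
  have tone : Trm (fun _ : ℕ → M => (1 : M)) := by simpa using tn 1
  unfold path_def_H
  refine dfn_all (fun x k => I k → ∃ a c, Good a c k ∧
    ∀ i, i < x 2 → (Beta a c i 1 ↔ Beta (x 0) (x 1) i 1)) 3
    (by intro x y v; simp [Function.update]) ?_
  refine dimp _ _ (path_def_d1 I hId _ (tv 3)) ?_
  refine dfn_ex (fun x a => ∃ c, Good a c (x 3) ∧
    ∀ i, i < x 2 → (Beta a c i 1 ↔ Beta (x 0) (x 1) i 1)) 4
    (by intro x y v; simp [Function.update]) ?_
  refine dfn_ex (fun x c => Good (x 4) c (x 3) ∧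
    ∀ i, i < x 2 → (Beta (x 4) c i 1 ↔ Beta (x 0) (x 1) i 1)) 5
    (by intro x y v; simp [Function.update]) ?_
  refine dand _ _ (path_def_d3 Good hGd _ _ _ (tv 4) (tv 5) (tv 3)) ?_
  refine dfn_all (fun x i => i < x 2 → (Beta (x 4) (x 5) i 1 ↔ Beta (x 0) (x 1) i 1)) 6
    (by intro x y v; simp [Function.update]) ?_
  refine dimp _ _ (dlt _ _ (tv 6) (tv 2)) ?_
  exact diff _ _ (path_def_beta hc _ _ _ _ (tv 4) (tv 5) (tv 6) tone)
    (path_def_beta hc _ _ _ _ (tv 0) (tv 1) (tv 6) tone)

theorem path_def_LM_dfn {M : Type} [CommSemiring M] [LinearOrder M] [LA.Structure M]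
    (hc : Compat M)
    (Good : M → M → M → Prop) (hGd : Dfn (fun x : ℕ → M => Good (x 0) (x 1) (x 2)))
    (I : M → Prop) (hId : Dfn (fun x : ℕ → M => I (x 0))) :
    Dfn (fun x : ℕ → M => path_def_LM Good I (x 0) (x 1) (x 2)) := by
  obtain ⟨_, dnot, dand, _, dimp, diff⟩ := dfn_bool (M := M)
  obtain ⟨tv, tn, tadd, _, _, dlt, _⟩ := trm_ops hc
  have tone : Trm (fun _ : ℕ → M => (1 : M)) := by simpa using tn 1
  have hH := path_def_H_dfn hc Good hGd I hId
  unfold path_def_LM
  refine dand _ _ hH ?_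
  refine dfn_all (fun x j0 => j0 < x 2 → Beta (x 0) (x 1) j0 1 → ¬ ∃ a' c',
    (∀ i, i < j0 → (Beta a' c' i 1 ↔ Beta (x 0) (x 1) i 1)) ∧ ¬ Beta a' c' j0 1 ∧
      path_def_H Good I a' c' (j0 + 1)) 3 (by intro x y v; simp [Function.update]) ?_
  refine dimp _ _ (dlt _ _ (tv 3) (tv 2)) ?_
  refine dimp _ _ (path_def_beta hc _ _ _ _ (tv 0) (tv 1) (tv 3) tone) ?_
  refine dnot _ ?_
  refine dfn_ex (fun x a' => ∃ c',
    (∀ i, i < x 3 → (Beta a' c' i 1 ↔ Beta (x 0) (x 1) i 1)) ∧ ¬ Beta a' c' (x 3) 1 ∧
      path_def_H Good I a' c' (x 3 + 1)) 4 (by intro x y v; simp [Function.update]) ?_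
  refine dfn_ex (fun x c' =>
    (∀ i, i < x 3 → (Beta (x 4) c' i 1 ↔ Beta (x 0) (x 1) i 1)) ∧ ¬ Beta (x 4) c' (x 3) 1 ∧
      path_def_H Good I (x 4) c' (x 3 + 1)) 5 (by intro x y v; simp [Function.update]) ?_
  refine dand _ _ ?_ ?_
  · refine dfn_all (fun x i => i < x 3 → (Beta (x 4) (x 5) i 1 ↔ Beta (x 0) (x 1) i 1)) 6
      (by intro x y v; simp [Function.update]) ?_
    refine dimp _ _ (dlt _ _ (tv 6) (tv 3)) ?_
    exact diff _ _ (path_def_beta hc _ _ _ _ (tv 4) (tv 5) (tv 6) tone)
      (path_def_beta hc _ _ _ _ (tv 0) (tv 1) (tv 6) tone)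
  · refine dand _ _ (dnot _ (path_def_beta hc _ _ _ _ (tv 4) (tv 5) (tv 3) tone)) ?_
    exact path_def_d3 (path_def_H Good I) hH _ _ _ (tv 4) (tv 5) (tadd _ _ (tv 3) tone)

theorem path_def_code {M : Type} [CommSemiring M] [LinearOrder M] [IsStrictOrderedRing M]
    [CanonicallyOrderedAdd M] [LA.Structure M] (hc : Compat M) (τ : ℕ → Bool) (n : ℕ) :
    ∃ a c : M, ∀ i < n, (Beta a c (i : M) 1 ↔ τ i = true) := by
  obtain ⟨a, c, h⟩ := beta_exists hc.disc n (fun i => if τ i = true then (1 : M) else 0)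
  refine ⟨a, c, ?_⟩
  intro i hi
  have h1 := h i hi
  by_cases ht : τ i = true
  · simp only [ht, if_true] at h1
    exact ⟨fun _ => ht, fun _ => h1⟩
  · simp only [ht, if_false] at h1
    constructor
    · intro h2
      exact absurd (beta_unique hc.disc _ _ _ _ _ h1 h2) zero_ne_one
    · intro h2
      exact absurd h2 ht

theorem path_def_lt {M : Type} [CommSemiring M] [LinearOrder M] [IsStrictOrderedRing M]
    [CanonicallyOrderedAdd M] [LA.Structure M] (hc : Compat M) (n : ℕ) (P : M → Prop) :
    (∀ i : M, i < (n : M) → P i) ↔ ∀ i : ℕ, i < n → P (i : M) := by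
  constructor
  · intro h i hi
    exact h _ (Nat.cast_lt.2 hi)
  · intro h i hi
    obtain ⟨m, hm, rfl⟩ := std_below hc n i hi.le
    exact h m (Nat.cast_lt.1 hi)

theorem path_def_H_iff {M : Type} [CommSemiring M] [LinearOrder M] [IsStrictOrderedRing M]
    [CanonicallyOrderedAdd M] [LA.Structure M] (hc : Compat M)
    (Good : M → M → M → Prop) (I : M → Prop) (a' c' : M) (n : ℕ) (y : ℕ → Bool)
    (hy : ∀ i < n, (Beta a' c' (i : M) 1 ↔ y i = true)) :
    path_def_H Good I a' c' (n : M) ↔ ∀ k, I k → ∃ a c, Good a c k ∧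
      ∀ i < n, (Beta a c (i : M) 1 ↔ y i = true) := by
  unfold path_def_H
  constructor
  · intro h k hk
    obtain ⟨a, c, h1, h2⟩ := h k hk
    rw [path_def_lt hc] at h2
    exact ⟨a, c, h1, fun i hi => (h2 i hi).trans (hy i hi)⟩
  · intro h k hk
    obtain ⟨a, c, h1, h2⟩ := h k hk
    refine ⟨a, c, h1, ?_⟩
    rw [path_def_lt hc]
    exact fun i hi => (h2 i hi).trans (hy i hi).symm

/-- good strings -/
def path_def_G {M : Type} [CommSemiring M] [LinearOrder M] (Good : M → M → M → Prop)
    (I : M → Prop) (σ : List Bool) : Prop :=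
  ∀ k, I k → ∃ a c, Good a c k ∧
    ∀ i < σ.length, (Beta a c (i : M) 1 ↔ σ.getD i false = true)

theorem path_def_G_pre {M : Type} [CommSemiring M] [LinearOrder M] (Good : M → M → M → Prop)
    (I : M → Prop) (Y : ℕ → Bool) (s : ℕ) : path_def_G Good I (pre Y s) ↔
      ∀ k, I k → ∃ a c, Good a c k ∧ ∀ i < s, (Beta a c (i : M) 1 ↔ Y i = true) := by
  unfold path_def_G
  rw [length_pre]
  constructor
  · intro h k hk
    obtain ⟨a, c, h1, h2⟩ := h k hk
    refine ⟨a, c, h1, fun i hi => ?_⟩
    rw [h2 i hi, pre_getD _ _ _ _ hi]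
  · intro h k hk
    obtain ⟨a, c, h1, h2⟩ := h k hk
    refine ⟨a, c, h1, fun i hi => ?_⟩
    rw [h2 i hi, pre_getD _ _ _ _ hi]

theorem path_def_pre_upd (Y : ℕ → Bool) (s : ℕ) (b : Bool) :
    pre Y s ++ [b] = pre (Function.update Y s b) (s + 1) := by
  rw [pre_succ, Function.update_self]
  congr 1
  unfold pre
  apply List.map_congr_left
  intro i hi
  rw [List.mem_range] at hi
  rw [Function.update_of_ne (by omega)]

theorem path_def_Y {M : Type} [CommSemiring M] [LinearOrder M] (Good : M → M → M → Prop)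
    (I : M → Prop) :
    ∃ Y : ℕ → Bool, ∀ s, (Y s = false ↔ path_def_G Good I (pre Y s ++ [false])) := by
  classical
  let P : ℕ → List Bool := fun s => Nat.rec (motive := fun _ => List Bool) []
    (fun _ σ => σ ++ [if path_def_G Good I (σ ++ [false]) then false else true]) s
  let Y : ℕ → Bool := fun s => if path_def_G Good I (P s ++ [false]) then false else true
  have hP : ∀ s, P s = pre Y s := by
    intro s
    induction s with
    | zero => rfl
    | succ s ih =>
      rw [pre_succ, ← ih]
  refine ⟨Y, ?_⟩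
  intro s
  rw [← hP s]
  show (if path_def_G Good I (P s ++ [false]) then false else true) = false ↔ _
  split_ifs with h
  · exact ⟨fun _ => h, fun _ => rfl⟩
  · exact ⟨fun h' => absurd h' (by simp), fun h' => absurd h' h⟩

theorem path_def_LM_iff {M : Type} [CommSemiring M] [LinearOrder M] [IsStrictOrderedRing M]
    [CanonicallyOrderedAdd M] [LA.Structure M] (hc : Compat M)
    (Good : M → M → M → Prop) (I : M → Prop) (Y : ℕ → Bool)
    (hY : ∀ s, (Y s = false ↔ path_def_G Good I (pre Y s ++ [false])))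
    (hall : ∀ s, path_def_G Good I (pre Y s)) (a c : M) (n : ℕ) :
    path_def_LM Good I a c (n : M) ↔ ∀ i < n, (Beta a c (i : M) 1 ↔ Y i = true) := by
  have hup : ∀ m : ℕ, ∀ i < m, Function.update Y m false i = Y i := by
    intro m i hi
    rw [Function.update_of_ne (by omega)]
  constructor
  · rintro ⟨h1, h2⟩ i
    induction i using Nat.strong_induction_on with
    | _ m ih =>
      intro hm
      have hbits : ∀ i < m, (Beta a c (i : M) 1 ↔ Y i = true) := fun i hi =>
        ih i hi (hi.trans hm)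
      by_cases hb : Beta a c (m : M) 1
      · refine ⟨fun _ => ?_, fun _ => hb⟩
        by_contra hYm
        rw [Bool.not_eq_true] at hYm
        obtain ⟨a', c', hcode⟩ := path_def_code hc (Function.update Y m false) (m + 1)
        apply h2 (m : M) (Nat.cast_lt.2 hm) hb
        refine ⟨a', c', ?_, ?_, ?_⟩
        · rw [path_def_lt hc]
          intro i hi
          rw [hcode i (by omega), hbits i hi, hup m i hi]
        · rw [hcode m (by omega), Function.update_self]
          simp
        · have h3 := (hY m).1 hYm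
          rw [path_def_pre_upd, path_def_G_pre] at h3
          have h4 := (path_def_H_iff hc Good I a' c' (m + 1) _ hcode).2 h3
          rwa [Nat.cast_add, Nat.cast_one] at h4
      · refine ⟨fun h => absurd h hb, fun hYm => ?_⟩
        exfalso
        have h3 : ¬ path_def_G Good I (pre Y m ++ [false]) := by
          intro h
          rw [← hY m, hYm] at h
          simp at h
        apply h3
        rw [path_def_pre_upd, path_def_G_pre]
        intro k hk
        obtain ⟨a1, c1, h4, h5⟩ := h1 k hk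
        rw [path_def_lt hc] at h5
        refine ⟨a1, c1, h4, ?_⟩
        intro i hi
        rw [h5 i (by omega)]
        rcases Nat.lt_or_ge i m with him | him
        · rw [hup m i him]
          exact hbits i him
        · have : i = m := by omega
          subst this
          rw [Function.update_self]
          exact ⟨fun h => absurd h hb, fun h => by simp at h⟩
  · intro h
    refine ⟨?_, ?_⟩
    · have h1 := hall n
      rw [path_def_G_pre] at h1
      exact (path_def_H_iff hc Good I a c n Y h).2 h1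
    · rw [path_def_lt hc]
      intro m hm hb
      rintro ⟨a', c', h3, h4, h5⟩
      rw [path_def_lt hc] at h3
      have hYm : Y m = true := (h m hm).1 hb
      have h6 : ¬ path_def_G Good I (pre Y m ++ [false]) := by
        intro h
        rw [← hY m, hYm] at h
        simp at h
      apply h6
      rw [path_def_pre_upd, path_def_G_pre]
      have h7 : ((m : M) + 1) = ((m + 1 : ℕ) : M) := by push_cast; rfl
      rw [h7] at h5
      refine (path_def_H_iff hc Good I a' c' (m + 1) _ ?_).1 h5
      intro i hi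
      rcases Nat.lt_or_ge i m with him | him
      · rw [hup m i him, h3 i him]
        exact h i (by omega)
      · have : i = m := by omega
        subst this
        rw [Function.update_self]
        exact ⟨fun h => absurd h h4, fun h => by simp at h⟩

/-- the leftmost path through the strings that are `Good` up to every level in `I` -/
theorem path_def {M : Type} [CommSemiring M] [LinearOrder M] [IsStrictOrderedRing M]
    [CanonicallyOrderedAdd M] [LA.Structure M] (hc : Compat M)
    (Good : M → M → M → Prop) (hGd : Dfn (fun x : ℕ → M => Good (x 0) (x 1) (x 2)))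
    (I : M → Prop) (hId : Dfn (fun x : ℕ → M => I (x 0)))
    (hG : ∀ a c k k', k' ≤ k → Good a c k → Good a c k') (hI : ∀ k k', I k → I k' → I (max k k'))
    (h0 : ∀ k, I k → ∃ a c, Good a c k) :
    ∃ Y ∈ RepM M, ∀ (s : ℕ) (k : M), I k → ∃ a c, Good a c k ∧ ∀ i < s, (Beta a c (i : M) 1 ↔ Y i = true) := by
  obtain ⟨Y, hY⟩ := path_def_Y Good I
  have hall : ∀ s, path_def_G Good I (pre Y s) := by
    intro s
    induction s with
    | zero =>
      rw [path_def_G_pre]
      intro k hk
      obtain ⟨a, c, h⟩ := h0 k hk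
      exact ⟨a, c, h, fun i hi => absurd hi (by omega)⟩
    | succ s ih =>
      rw [pre_succ]
      by_cases hs : Y s = false
      · rw [hs]
        exact (hY s).1 hs
      · have h1 : ¬ path_def_G Good I (pre Y s ++ [false]) := fun h => hs ((hY s).2 h)
        rw [Bool.not_eq_false] at hs
        rw [hs]
        rcases hs_step Good I hG hI (pre Y s) ih with h | h
        · exact absurd h h1
        · exact h
  refine ⟨Y, ?_, ?_⟩
  · obtain ⟨_, dnot, dand, _, dimp, diff⟩ := dfn_bool (M := M)
    obtain ⟨tv, tn, tadd, _, _, dlt, _⟩ := trm_ops hc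
    have tone : Trm (fun _ : ℕ → M => (1 : M)) := by simpa using tn 1
    refine ⟨fun i => ∃ a c, path_def_LM Good I a c (i + 1) ∧ Beta a c i 1, ?_, ?_⟩
    · refine dfn_ex (fun x a => ∃ c, path_def_LM Good I a c (x 0 + 1) ∧ Beta a c (x 0) 1) 1
        (by intro x y v; simp [Function.update]) ?_
      refine dfn_ex (fun x c => path_def_LM Good I (x 1) c (x 0 + 1) ∧ Beta (x 1) c (x 0) 1) 2
        (by intro x y v; simp [Function.update]) ?_
      refine dand _ _ ?_ (path_def_beta hc _ _ _ _ (tv 1) (tv 2) (tv 0) tone)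
      exact path_def_d3 (path_def_LM Good I) (path_def_LM_dfn hc Good hGd I hId) _ _ _
        (tv 1) (tv 2) (tadd _ _ (tv 0) tone)
    · intro n
      have h7 : ((n : M) + 1) = ((n + 1 : ℕ) : M) := by push_cast; rfl
      simp only [h7, path_def_LM_iff hc Good I Y hY hall]
      constructor
      · rintro ⟨a, c, h1, h2⟩
        exact (h1 n (by omega)).1 h2
      · intro hn
        obtain ⟨a, c, h1⟩ := path_def_code hc Y (n + 1)
        exact ⟨a, c, h1, (h1 n (by omega)).2 hn⟩
  · intro s k hk
    exact (path_def_G_pre Good I Y s).1 (hall s) k hk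

end Pool.Agent.Helper227.EN
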