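import Pool.Agent.Helper227.ENJ.Defs
import Pool.Agent.Helper227.ENJ.P_inj_extend
import Pool.Agent.Helper227.ENJ.P_dfn_bool
import Pool.Agent.Helper227.ENJ.P_dfn_ex
import Pool.Agent.Helper227.ENJ.P_dfn_all
import Pool.Agent.Helper227.ENJ.P_dfn_subst
import Pool.Agent.Helper227.ENJ.P_trm_ops
import Pool.Agent.Helper227.ENJ.P_std_below
import Pool.Agent.Helper227.ENJ.P_beta_unique
import Pool.Agent.Helper227.ENJ.P_beta_exists
import Pool.Agent.Helper227.ENJ.P_dfn_beta
import Pool.Agent.Helper227.ENJ.P_rep_str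

set_option autoImplicit false

open FirstOrder FirstOrder.Language


namespace Pool.Agent.Helper227.EN



theorem repE_blk_sub2 {M : Type} [CommSemiring M] [LinearOrder M] [LA.Structure M] (hc : Compat M)
    (R : M → M → Prop) (h : Dfn (fun x : ℕ → M => R (x 0) (x 1))) (p q : ℕ) :
    Dfn (fun x : ℕ → M => R (x p) (x q)) := by
  have h1 := dfn_subst _ h (fun i x => x (if i = 0 then p else q)) (fun i => (trm_ops hc).1 _)
  simpa using h1

theorem repE_blk_sub3 {M : Type} [CommSemiring M] [LinearOrder M] [LA.Structure M] (hc : Compat M)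
    (R : M → M → M → Prop) (h : Dfn (fun x : ℕ → M => R (x 0) (x 1) (x 2))) (p q r : ℕ) :
    Dfn (fun x : ℕ → M => R (x p) (x q) (x r)) := by
  have h1 := dfn_subst _ h (fun i x => x (if i = 0 then p else if i = 1 then q else r))
    (fun i => (trm_ops hc).1 _)
  simpa using h1

theorem repE_blk_sub4 {M : Type} [CommSemiring M] [LinearOrder M] [LA.Structure M] (hc : Compat M)
    (R : M → M → M → M → Prop) (h : Dfn (fun x : ℕ → M => R (x 0) (x 1) (x 2) (x 3)))
    (p q r s : ℕ) :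
    Dfn (fun x : ℕ → M => R (x p) (x q) (x r) (x s)) := by
  have h1 := dfn_subst _ h
    (fun i x => x (if i = 0 then p else if i = 1 then q else if i = 2 then r else s))
    (fun i => (trm_ops hc).1 _)
  simpa using h1

theorem repE_blk_lt {M : Type} [CommSemiring M] [LinearOrder M] [LA.Structure M] (hc : Compat M)
    (p q : ℕ) : Dfn (fun x : ℕ → M => x p < x q) :=
  (trm_ops hc).2.2.2.2.2.1 _ _ ((trm_ops hc).1 p) ((trm_ops hc).1 q)

theorem repE_blk_eq {M : Type} [CommSemiring M] [LinearOrder M] [LA.Structure M] (hc : Compat M)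
    (p q : ℕ) : Dfn (fun x : ℕ → M => x p = x q) :=
  (trm_ops hc).2.2.2.2.1 _ _ ((trm_ops hc).1 p) ((trm_ops hc).1 q)

theorem repE_blk_A {M : Type} [CommSemiring M] [LinearOrder M] [LA.Structure M] (hc : Compat M) :
    Dfn (fun x : ℕ → M => ∀ i, (i < x 2 ∨ i < x 4) → ∃ v, Beta (x 5) (x 6) i v) := by
  obtain ⟨_, hnot, hand, hor, himp, hiff⟩ := dfn_bool (M := M)
  refine dfn_all (fun x i => (i < x 2 ∨ i < x 4) → ∃ v, Beta (x 5) (x 6) i v) 7 ?_ ?_
  · intro x y v
    simp [Function.update_apply]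
  · refine himp _ _ (hor _ _ (repE_blk_lt hc 7 2) (repE_blk_lt hc 7 4)) ?_
    refine dfn_ex (fun x v => Beta (x 5) (x 6) (x 7) v) 9 ?_ ?_
    · intro x y v
      simp [Function.update_apply]
    · exact repE_blk_sub4 hc Beta (dfn_beta hc) 5 6 7 9

theorem repE_blk_B {M : Type} [CommSemiring M] [LinearOrder M] [LA.Structure M] (hc : Compat M) :
    Dfn (fun x : ℕ → M => ∀ i j v, (i < x 2 ∨ i < x 4) → (j < x 2 ∨ j < x 4) →
      Beta (x 5) (x 6) i v → Beta (x 5) (x 6) j v → i = j) := by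
  obtain ⟨_, hnot, hand, hor, himp, hiff⟩ := dfn_bool (M := M)
  refine dfn_all (fun x i => ∀ j v, (i < x 2 ∨ i < x 4) → (j < x 2 ∨ j < x 4) →
      Beta (x 5) (x 6) i v → Beta (x 5) (x 6) j v → i = j) 7 ?_ ?_
  · intro x y v
    simp [Function.update_apply]
  refine dfn_all (fun x j => ∀ v, (x 7 < x 2 ∨ x 7 < x 4) → (j < x 2 ∨ j < x 4) →
      Beta (x 5) (x 6) (x 7) v → Beta (x 5) (x 6) j v → x 7 = j) 8 ?_ ?_
  · intro x y v
    simp [Function.update_apply]
  refine dfn_all (fun x v => (x 7 < x 2 ∨ x 7 < x 4) → (x 8 < x 2 ∨ x 8 < x 4) →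
      Beta (x 5) (x 6) (x 7) v → Beta (x 5) (x 6) (x 8) v → x 7 = x 8) 9 ?_ ?_
  · intro x y v
    simp [Function.update_apply]
  refine himp _ _ (hor _ _ (repE_blk_lt hc 7 2) (repE_blk_lt hc 7 4)) ?_
  refine himp _ _ (hor _ _ (repE_blk_lt hc 8 2) (repE_blk_lt hc 8 4)) ?_
  refine himp _ _ (repE_blk_sub4 hc Beta (dfn_beta hc) 5 6 7 9) ?_
  exact himp _ _ (repE_blk_sub4 hc Beta (dfn_beta hc) 5 6 8 9) (repE_blk_eq hc 7 8)

theorem repE_blk_C {M : Type} [CommSemiring M] [LinearOrder M] [LA.Structure M] (hc : Compat M) :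
    Dfn (fun x : ℕ → M => ∀ i, i < x 2 → ∀ v, Beta (x 0) (x 1) i v → Beta (x 5) (x 6) i v) := by
  obtain ⟨_, hnot, hand, hor, himp, hiff⟩ := dfn_bool (M := M)
  refine dfn_all (fun x i => i < x 2 → ∀ v, Beta (x 0) (x 1) i v → Beta (x 5) (x 6) i v) 7 ?_ ?_
  · intro x y v
    simp [Function.update_apply]
  refine himp _ _ (repE_blk_lt hc 7 2) ?_
  refine dfn_all (fun x v => Beta (x 0) (x 1) (x 7) v → Beta (x 5) (x 6) (x 7) v) 9 ?_ ?_
  · intro x y v
    simp [Function.update_apply]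
  exact himp _ _ (repE_blk_sub4 hc Beta (dfn_beta hc) 0 1 7 9)
    (repE_blk_sub4 hc Beta (dfn_beta hc) 5 6 7 9)

theorem repE_blk_D {M : Type} [CommSemiring M] [LinearOrder M] [LA.Structure M] (hc : Compat M)
    (Bt : M → M → Prop) (hBt : Dfn (fun x : ℕ → M => Bt (x 0) (x 1)))
    (S : M → M → M → Prop) (hS : Dfn (fun x : ℕ → M => S (x 0) (x 1) (x 2))) :
    Dfn (fun x : ℕ → M => ∀ j, j < x 4 → (Bt (x 3) j ↔ S (x 5) (x 6) j)) := by
  obtain ⟨_, hnot, hand, hor, himp, hiff⟩ := dfn_bool (M := M)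
  refine dfn_all (fun x j => j < x 4 → (Bt (x 3) j ↔ S (x 5) (x 6) j)) 8 ?_ ?_
  · intro x y v
    simp [Function.update_apply]
  exact himp _ _ (repE_blk_lt hc 8 4)
    (hiff _ _ (repE_blk_sub2 hc Bt hBt 3 8) (repE_blk_sub3 hc S hS 5 6 8))

theorem repE_blk_T {M : Type} [CommSemiring M] [LinearOrder M] [LA.Structure M] (hc : Compat M)
    (V : M → M → Prop) (hV : Dfn (fun x : ℕ → M => V (x 0) (x 1)))
    (Bt : M → M → Prop) (hBt : Dfn (fun x : ℕ → M => Bt (x 0) (x 1)))
    (S : M → M → M → Prop) (hS : Dfn (fun x : ℕ → M => S (x 0) (x 1) (x 2))) :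
    Dfn (fun x : ℕ → M => ∃ l, V (x 3) l ∧ ∃ a' c',
      (∀ i, (i < x 2 ∨ i < l) → ∃ v, Beta a' c' i v) ∧
      (∀ i j v, (i < x 2 ∨ i < l) → (j < x 2 ∨ j < l) →
        Beta a' c' i v → Beta a' c' j v → i = j) ∧
      (∀ i, i < x 2 → ∀ v, Beta (x 0) (x 1) i v → Beta a' c' i v) ∧
      (∀ j, j < l → (Bt (x 3) j ↔ S a' c' j))) := by
  obtain ⟨_, hnot, hand, hor, himp, hiff⟩ := dfn_bool (M := M)
  refine dfn_ex (fun x l => V (x 3) l ∧ ∃ a' c',
      (∀ i, (i < x 2 ∨ i < l) → ∃ v, Beta a' c' i v) ∧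
      (∀ i j v, (i < x 2 ∨ i < l) → (j < x 2 ∨ j < l) →
        Beta a' c' i v → Beta a' c' j v → i = j) ∧
      (∀ i, i < x 2 → ∀ v, Beta (x 0) (x 1) i v → Beta a' c' i v) ∧
      (∀ j, j < l → (Bt (x 3) j ↔ S a' c' j))) 4 ?_ ?_
  · intro x y v
    simp [Function.update_apply]
  refine hand _ _ (repE_blk_sub2 hc V hV 3 4) ?_
  refine dfn_ex (fun x a' => ∃ c',
      (∀ i, (i < x 2 ∨ i < x 4) → ∃ v, Beta a' c' i v) ∧
      (∀ i j v, (i < x 2 ∨ i < x 4) → (j < x 2 ∨ j < x 4) →
        Beta a' c' i v → Beta a' c' j v → i = j) ∧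
      (∀ i, i < x 2 → ∀ v, Beta (x 0) (x 1) i v → Beta a' c' i v) ∧
      (∀ j, j < x 4 → (Bt (x 3) j ↔ S a' c' j))) 5 ?_ ?_
  · intro x y v
    simp [Function.update_apply]
  refine dfn_ex (fun x c' =>
      (∀ i, (i < x 2 ∨ i < x 4) → ∃ v, Beta (x 5) c' i v) ∧
      (∀ i j v, (i < x 2 ∨ i < x 4) → (j < x 2 ∨ j < x 4) →
        Beta (x 5) c' i v → Beta (x 5) c' j v → i = j) ∧
      (∀ i, i < x 2 → ∀ v, Beta (x 0) (x 1) i v → Beta (x 5) c' i v) ∧
      (∀ j, j < x 4 → (Bt (x 3) j ↔ S (x 5) c' j))) 6 ?_ ?_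
  · intro x y v
    simp [Function.update_apply]
  exact hand _ _ (repE_blk_A hc) (hand _ _ (repE_blk_B hc) (hand _ _ (repE_blk_C hc)
    (repE_blk_D hc Bt hBt S hS)))

/-- one quantifier step -/
theorem repE_blk {M : Type} [CommSemiring M] [LinearOrder M] [IsStrictOrderedRing M]
    [CanonicallyOrderedAdd M] [LA.Structure M] (hc : Compat M) (n : ℕ)
    (S : M → M → M → Prop) (hS : Dfn (fun x : ℕ → M => S (x 0) (x 1) (x 2)))
    (hS' : ∀ (z : ℕ) (a c : M) (b : ℕ → M), Function.Injective b →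
      (∀ i ≤ z, Beta a c (i : M) (b i)) → (S a c z ↔ E n b z = true)) :
    ∃ T : M → M → M → M → Prop, Dfn (fun x : ℕ → M => T (x 0) (x 1) (x 2) (x 3)) ∧
      ∀ (k m : ℕ) (a c : M) (b : ℕ → M), Function.Injective b →
        (∀ i < k, Beta a c (i : M) (b i)) →
        (T a c k m ↔ ∃ u : List Bool, (Encodable.decode m : Option (List Bool)) = some u ∧
          ∃ b' : ℕ → M, Function.Injective b' ∧ (∀ i < k, b' i = b i) ∧
            pre (E n b') u.length = u) := by
  classical
  obtain ⟨V, Bt, hV, hBt, hV', hBt'⟩ := rep_str hc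
  refine ⟨fun a c k m => ∃ l, V m l ∧ ∃ a' c',
      (∀ i, (i < k ∨ i < l) → ∃ v, Beta a' c' i v) ∧
      (∀ i j v, (i < k ∨ i < l) → (j < k ∨ j < l) →
        Beta a' c' i v → Beta a' c' j v → i = j) ∧
      (∀ i, i < k → ∀ v, Beta a c i v → Beta a' c' i v) ∧
      (∀ j, j < l → (Bt m j ↔ S a' c' j)), repE_blk_T hc V hV Bt hBt S hS, ?_⟩
  intro k m a c b hb hβ
  haveI hinf : Infinite M := Infinite.of_injective (Nat.cast : ℕ → M) Nat.cast_injective
  have hstd : ∀ (N : ℕ) (x : M), x < (N : M) → ∃ m' : ℕ, m' < N ∧ x = (m' : M) := by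
    intro N x hx
    obtain ⟨m', _, h2⟩ := std_below hc N x hx.le
    refine ⟨m', ?_, h2⟩
    rw [h2] at hx
    exact_mod_cast hx
  constructor
  · rintro ⟨l, hVl, a', c', hA, hB, hC, hD⟩
    obtain ⟨u, hu1, hu2⟩ := (hV' m l).mp hVl
    subst hu2
    refine ⟨u, hu1, ?_⟩
    have hlt : ∀ i : ℕ, i < max k u.length → ((i : M) < (k : M) ∨ (i : M) < (u.length : M)) := by
      intro i hi
      rcases lt_max_iff.mp hi with h | h
      · left
        exact_mod_cast h
      · right
        exact_mod_cast h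
    have hex : ∀ i : ℕ, ∃ v : M, i < max k u.length → Beta a' c' (i : M) v := by
      intro i
      by_cases hi : i < max k u.length
      · obtain ⟨v, hv⟩ := hA (i : M) (hlt i hi)
        exact ⟨v, fun _ => hv⟩
      · exact ⟨0, fun h => absurd h hi⟩
    choose f hf using hex
    obtain ⟨b', hb'1, hb'2⟩ := inj_extend f (max k u.length) (by
      intro i hi j hj hij
      have h1 := hf i hi
      have h2 := hf j hj
      rw [← hij] at h2
      have h3 := hB (i : M) (j : M) (f i) (hlt i hi) (hlt j hj) h1 h2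
      exact_mod_cast h3)
    refine ⟨b', hb'1, ?_, ?_⟩
    · intro i hi
      have hi' : i < max k u.length := lt_max_of_lt_left hi
      rw [hb'2 i hi']
      have hik : (i : M) < (k : M) := by exact_mod_cast hi
      exact beta_unique hc.disc a' c' (i : M) _ _ (hf i hi') (hC (i : M) hik _ (hβ i hi))
    · apply List.ext_getElem
      · rw [length_pre]
      · intro j h1 h2
        rw [getElem_pre]
        have hjl : (j : M) < (u.length : M) := by exact_mod_cast h2
        have h3 := hD (j : M) hjl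
        have h4 := hS' j a' c' b' hb'1 (by
          intro i hi
          have hi' : i < max k u.length := lt_max_of_lt_right (lt_of_le_of_lt hi h2)
          rw [hb'2 i hi']
          exact hf i hi')
        have h5 := hBt' m j
        have h6 : (∃ u' : List Bool, (Encodable.decode m : Option (List Bool)) = some u' ∧
            u'.getD j false = true) ↔ u[j] = true := by
          constructor
          · rintro ⟨u', hu'1, hu'2⟩
            rw [hu1] at hu'1
            have : u = u' := Option.some.inj hu'1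
            subst this
            rw [List.getD_eq_getElem _ _ h2] at hu'2
            exact hu'2
          · intro h
            refine ⟨u, hu1, ?_⟩
            rw [List.getD_eq_getElem _ _ h2]
            exact h
        have h7 : E n b' j = true ↔ u[j] = true := by
          rw [← h4, ← h3, h5, h6]
        exact Bool.eq_iff_iff.mpr h7
  · rintro ⟨u, hu1, b', hb'1, hb'2, hpre⟩
    refine ⟨(u.length : M), (hV' m _).mpr ⟨u, hu1, rfl⟩, ?_⟩
    obtain ⟨a', c', hac⟩ := beta_exists hc.disc (max k u.length) b'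
    have hcase : ∀ i : M, (i < (k : M) ∨ i < (u.length : M)) →
        ∃ i' : ℕ, i' < max k u.length ∧ i = (i' : M) := by
      rintro i (h | h)
      · obtain ⟨i', h1, h2⟩ := hstd k i h
        exact ⟨i', lt_max_of_lt_left h1, h2⟩
      · obtain ⟨i', h1, h2⟩ := hstd u.length i h
        exact ⟨i', lt_max_of_lt_right h1, h2⟩
    refine ⟨a', c', ?_, ?_, ?_, ?_⟩
    · intro i hi
      obtain ⟨i', h1, rfl⟩ := hcase i hi
      exact ⟨b' i', hac i' h1⟩
    · intro i j v hi hj h1 h2
      obtain ⟨i', hi1, rfl⟩ := hcase i hi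
      obtain ⟨j', hj1, rfl⟩ := hcase j hj
      have e1 := beta_unique hc.disc a' c' (i' : M) _ _ h1 (hac i' hi1)
      have e2 := beta_unique hc.disc a' c' (j' : M) _ _ h2 (hac j' hj1)
      have e3 : b' i' = b' j' := e1.symm.trans e2
      rw [hb'1 e3]
    · intro i hi v hv
      obtain ⟨i', h1, rfl⟩ := hstd k i hi
      have e1 := beta_unique hc.disc a c (i' : M) _ _ hv (hβ i' h1)
      rw [e1, ← hb'2 i' h1]
      exact hac i' (lt_max_of_lt_left h1)
    · intro j hj
      obtain ⟨j', h2, rfl⟩ := hstd u.length j hj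
      have h4 := hS' j' a' c' b' hb'1 (by
        intro i hi
        exact hac i (lt_max_of_lt_right (lt_of_le_of_lt hi h2)))
      rw [h4, hBt' m j']
      have h8 : u.getD j' false = E n b' j' := by
        have h9 := pre_getD (E n b') u.length j' false h2
        rw [hpre] at h9
        exact h9
      constructor
      · rintro ⟨u', hu'1, hu'2⟩
        rw [hu1] at hu'1
        have : u = u' := Option.some.inj hu'1
        subst this
        rw [← h8]
        exact hu'2
      · intro h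
        exact ⟨u, hu1, by rw [h8]; exact h⟩

end Pool.Agent.Helper227.EN
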