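import Pool.Agent.Helper227.ENJ.Defs
import Pool.Agent.Helper227.ENJ.P_dfn_bool
import Pool.Agent.Helper227.ENJ.P_dfn_ex
import Pool.Agent.Helper227.ENJ.P_dfn_subst
import Pool.Agent.Helper227.ENJ.P_trm_ops
import Pool.Agent.Helper227.ENJ.P_std_below
import Pool.Agent.Helper227.ENJ.P_repF_pair
import Pool.Agent.Helper227.ENJ.P_repE_zero
import Pool.Agent.Helper227.ENJ.P_repE_blk

set_option autoImplicit false

open FirstOrder FirstOrder.Language


namespace Pool.Agent.Helper227.EN



theorem repE_ren {M : Type} [CommSemiring M] [LinearOrder M] [LA.Structure M] (hc : Compat M)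
    (s : ℕ → ℕ) (R : (ℕ → M) → Prop) (h : Dfn R) : Dfn (fun x => R (fun i => x (s i))) :=
  dfn_subst R h (fun i x => x (s i)) (fun i => (trm_ops hc).1 (s i))

theorem repE_even {M : Type} [LA.Structure M] (n : ℕ) (b : ℕ → M) (m : ℕ) :
    E (n + 1) b (m + m) = E n b m := by
  rw [← two_mul]
  exact join_even _ _ _

theorem repE_odd {M : Type} [LA.Structure M] (n : ℕ) (b : ℕ → M) (m : ℕ) :
    E (n + 1) b (m + m + 1) = true ↔
      (∃ u : List Bool, (Encodable.decode (Nat.unpair m).2 : Option (List Bool)) = some u ∧
        ∃ b' : ℕ → M, Function.Injective b' ∧ (∀ i < (Nat.unpair m).1, b' i = b i) ∧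
          pre (E n b') u.length = u) := by
  rw [← two_mul]
  have h := join_odd (E n b) (fun z => open Classical in decide
      (∃ u : List Bool, (Encodable.decode (Nat.unpair z).2 : Option (List Bool)) = some u ∧
        ∃ b' : ℕ → M, Function.Injective b' ∧ (∀ i < (Nat.unpair z).1, b' i = b i) ∧
          pre (E n b') u.length = u)) m
  have h2 : E (n + 1) b (2 * m + 1) = _ := h
  rw [h2]
  simp only [decide_eq_true_eq]

/-- the level types are coded by formulas; `a, c` code (via beta) a long enough initial part of `b` -/
theorem repE {M : Type} [CommSemiring M] [LinearOrder M] [IsStrictOrderedRing M]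
    [CanonicallyOrderedAdd M] [LA.Structure M] (hc : Compat M) (n : ℕ) :
    ∃ S : M → M → M → Prop, Dfn (fun x : ℕ → M => S (x 0) (x 1) (x 2)) ∧
      ∀ (z : ℕ) (a c : M) (b : ℕ → M), Function.Injective b → (∀ i ≤ z, Beta a c (i : M) (b i)) →
        (S a c z ↔ E n b z = true) := by
  induction n with
  | zero =>
    obtain ⟨S, hS, hS'⟩ := repE_zero (M := M) hc
    exact ⟨S, hS, fun z a c b _ hb => hS' z a c b hb⟩
  | succ n ih =>
    obtain ⟨S, hS, hS'⟩ := ih
    obtain ⟨T, hT, hT'⟩ := repE_blk hc n S hS hS'
    obtain ⟨G, hG, -, hG2⟩ := repF_pair (M := M) hc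
    obtain ⟨-, -, band, bor, -, -⟩ := dfn_bool (M := M)
    obtain ⟨tv, tn, ta, tm, te, tl, -⟩ := trm_ops hc
    have t1' : Trm (fun _ : ℕ → M => (1 : M)) := by
      have := tn 1
      simpa only [Nat.cast_one] using this
    refine ⟨fun a c z => ∃ w, (z = w + w ∧ S a c w) ∨
      (z = w + w + 1 ∧ ∃ k m, G k m w ∧ T a c k m), ?_, ?_⟩
    · apply dfn_ex (fun (x : ℕ → M) w => (x 2 = w + w ∧ S (x 0) (x 1) w) ∨
        (x 2 = w + w + 1 ∧ ∃ k m, G k m w ∧ T (x 0) (x 1) k m)) 3
      · intro x y v
        rw [Function.update_of_ne (by decide), Function.update_of_ne (by decide),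
          Function.update_of_ne (by decide)]
      · apply bor
        · apply band
          · exact te _ _ (tv 2) (ta _ _ (tv 3) (tv 3))
          · exact repE_ren hc (fun i => if i = 2 then 3 else i) _ hS
        · apply band
          · exact te _ _ (tv 2) (ta _ _ (ta _ _ (tv 3) (tv 3)) t1')
          · apply dfn_ex (fun (x : ℕ → M) k => ∃ m, G k m (x 3) ∧ T (x 0) (x 1) k m) 4
            · intro x y v
              rw [Function.update_of_ne (by decide), Function.update_of_ne (by decide),
                Function.update_of_ne (by decide)]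
            · apply dfn_ex (fun (x : ℕ → M) m => G (x 4) m (x 3) ∧ T (x 0) (x 1) (x 4) m) 5
              · intro x y v
                rw [Function.update_of_ne (by decide), Function.update_of_ne (by decide),
                  Function.update_of_ne (by decide), Function.update_of_ne (by decide)]
              · apply band
                · exact repE_ren hc (fun i => if i = 0 then 4 else if i = 1 then 5 else 3) _ hG
                · exact repE_ren hc (fun i => if i = 2 then 4 else if i = 3 then 5 else i) _ hT
    · intro z a c b hinj hb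
      constructor
      · rintro ⟨w, ⟨h1, h2⟩ | ⟨h1, k, m', h2, h3⟩⟩
        · have hw : w ≤ (z : M) := by
            rw [h1]
            exact le_self_add
          obtain ⟨m, hm, rfl⟩ := std_below hc z w hw
          have hz : z = m + m := by exact_mod_cast h1
          subst hz
          rw [repE_even]
          exact (hS' m a c b hinj (fun i hi => hb i (by omega))).1 h2
        · have hw : w ≤ (z : M) := by
            rw [h1, add_assoc]
            exact le_self_add
          obtain ⟨m, hm, rfl⟩ := std_below hc z w hw
          have hz : z = m + m + 1 := by exact_mod_cast h1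
          subst hz
          rw [repE_odd]
          obtain ⟨e1, e2⟩ := (hG2 k m' m).1 h2
          subst e1
          subst e2
          have hle := Nat.unpair_left_le m
          exact (hT' _ _ a c b hinj (fun i hi => hb i (by omega))).1 h3
      · intro hz
        rcases Nat.even_or_odd' z with ⟨m, hm | hm⟩
        · have hm' : z = m + m := by omega
          subst hm'
          rw [repE_even] at hz
          refine ⟨(m : M), Or.inl ⟨by push_cast; rfl, ?_⟩⟩
          exact (hS' m a c b hinj (fun i hi => hb i (by omega))).2 hz
        · have hm' : z = m + m + 1 := by omega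
          subst hm'
          rw [repE_odd] at hz
          have hle := Nat.unpair_left_le m
          refine ⟨(m : M), Or.inr ⟨by push_cast; rfl, _, _, (hG2 _ _ m).2 ⟨rfl, rfl⟩, ?_⟩⟩
          exact (hT' _ _ a c b hinj (fun i hi => hb i (by omega))).2 hz

end Pool.Agent.Helper227.EN
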