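import Pool.Agent.Helper227.ENJ.Defs
import Pool.Agent.Helper227.ENJ.P_dfn_bool
import Pool.Agent.Helper227.ENJ.P_dfn_ex
import Pool.Agent.Helper227.ENJ.P_dfn_subst
import Pool.Agent.Helper227.ENJ.P_trm_ops
import Pool.Agent.Helper227.ENJ.P_repF_pair
import Pool.Agent.Helper227.ENJ.P_repF_primrec

set_option autoImplicit false

open FirstOrder FirstOrder.Language


namespace Pool.Agent.Helper227.EN



/-- binary primitive recursive functions -/
theorem repF_comp2 {M : Type} [CommSemiring M] [LinearOrder M] [IsStrictOrderedRing M]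
    [CanonicallyOrderedAdd M] [LA.Structure M] (hc : Compat M) (f : ℕ → ℕ → ℕ)
    (hf : Primrec₂ f) :
    ∃ G : M → M → M → Prop, Dfn (fun x : ℕ → M => G (x 0) (x 1) (x 2)) ∧
      ∀ (a b : ℕ) (y : M), G a b y ↔ y = (f a b : M) := by
  obtain ⟨F, hF, hF2⟩ := repF_primrec hc (Nat.unpaired f) (Primrec₂.unpaired'.2 hf)
  obtain ⟨P, hP, hP2, -⟩ := repF_pair hc
  refine ⟨fun a b y => ∃ p, P a b p ∧ F p y, ?_, ?_⟩
  · refine dfn_ex (fun x p => P (x 0) (x 1) p ∧ F p (x 2)) 3 ?_ ?_
    · intro x y v
      simp [Function.update]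
    · refine dfn_bool.2.2.1 (fun x => P (x 0) (x 1) (x 3)) (fun x => F (x 3) (x 2)) ?_ ?_
      · have h1 := dfn_subst _ hP (fun i x => if i = 2 then x 3 else x i) (fun i => by
          by_cases hi : i = 2
          · simpa [hi] using (trm_ops hc).1 3
          · simpa [hi] using (trm_ops hc).1 i)
        simpa using h1
      · have h1 := dfn_subst _ hF (fun i x => if i = 0 then x 3 else x 2) (fun i => by
          by_cases hi : i = 0
          · simpa [hi] using (trm_ops hc).1 3
          · simpa [hi] using (trm_ops hc).1 2)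
        simpa using h1
  · intro a b y
    constructor
    · rintro ⟨p, hp, hy⟩
      rw [hP2] at hp
      subst hp
      rw [hF2] at hy
      simpa [Nat.unpaired] using hy
    · intro hy
      refine ⟨((Nat.pair a b : ℕ) : M), (hP2 a b _).2 rfl, (hF2 _ y).2 ?_⟩
      simpa [Nat.unpaired] using hy

end Pool.Agent.Helper227.EN
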