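import Pool.Agent.Helper227.ENJ.Defs
import Pool.Agent.Helper227.ENJ.P_dfn_bool
import Pool.Agent.Helper227.ENJ.P_dfn_ex
import Pool.Agent.Helper227.ENJ.P_dfn_subst
import Pool.Agent.Helper227.ENJ.P_trm_ops
import Pool.Agent.Helper227.ENJ.P_std_below

set_option autoImplicit false

open FirstOrder FirstOrder.Language


namespace Pool.Agent.Helper227.EN



theorem repM_join {M : Type} [CommSemiring M] [LinearOrder M] [IsStrictOrderedRing M]
    [CanonicallyOrderedAdd M] [LA.Structure M] (hc : Compat M) (X Y : ℕ → Bool)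
    (hX : X ∈ RepM M) (hY : Y ∈ RepM M) : join X Y ∈ RepM M := by
  obtain ⟨SX, dX, eX⟩ := hX
  obtain ⟨SY, dY, eY⟩ := hY
  obtain ⟨tv, tn, ta, tm, de, dlt, dle⟩ := trm_ops hc
  obtain ⟨_, _, dand, dor, _, _⟩ := @dfn_bool M _
  have sX : Dfn (fun x : ℕ → M => SX (x 1)) :=
    dfn_subst (fun x : ℕ → M => SX (x 0)) dX (fun _ x => x 1) (fun _ => tv 1)
  have sY : Dfn (fun x : ℕ → M => SY (x 1)) :=
    dfn_subst (fun x : ℕ → M => SY (x 0)) dY (fun _ x => x 1) (fun _ => tv 1)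
  have e1 : Dfn (fun x : ℕ → M => x 0 = x 1 + x 1) := de _ _ (tv 0) (ta _ _ (tv 1) (tv 1))
  have e2 : Dfn (fun x : ℕ → M => x 0 = x 1 + x 1 + ((1 : ℕ) : M)) :=
    de _ _ (tv 0) (ta _ _ (ta _ _ (tv 1) (tv 1)) (tn 1))
  have h0 : ∀ (x : ℕ → M) (v : M), Function.update x 1 v 0 = x 0 := by
    intro x v
    simp
  have d1 : Dfn (fun x : ℕ → M => ∃ y, x 0 = y + y ∧ SX y) := by
    refine dfn_ex (fun (x : ℕ → M) (y : M) => x 0 = y + y ∧ SX y) 1 ?_ ?_
    · intro x y v
      simp only [h0]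
    · exact dand _ _ e1 sX
  have d2 : Dfn (fun x : ℕ → M => ∃ y, x 0 = y + y + ((1 : ℕ) : M) ∧ SY y) := by
    refine dfn_ex (fun (x : ℕ → M) (y : M) => x 0 = y + y + ((1 : ℕ) : M) ∧ SY y) 1 ?_ ?_
    · intro x y v
      simp only [h0]
    · exact dand _ _ e2 sY
  refine ⟨fun z => (∃ y, z = y + y ∧ SX y) ∨ (∃ y, z = y + y + ((1 : ℕ) : M) ∧ SY y),
    dor _ _ d1 d2, fun n => ?_⟩
  constructor
  · rintro (⟨y, hy, hs⟩ | ⟨y, hy, hs⟩)
    · have hle : y ≤ (n : M) := by rw [hy]; exact le_self_add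
      obtain ⟨m, _, rfl⟩ := std_below hc n y hle
      have hn : n = 2 * m := by
        have : ((n : ℕ) : M) = ((2 * m : ℕ) : M) := by rw [hy]; push_cast; ring
        exact Nat.cast_injective this
      rw [hn, join_even]
      exact (eX m).1 hs
    · have hle : y ≤ (n : M) := by rw [hy, add_assoc]; exact le_self_add
      obtain ⟨m, _, rfl⟩ := std_below hc n y hle
      have hn : n = 2 * m + 1 := by
        have : ((n : ℕ) : M) = ((2 * m + 1 : ℕ) : M) := by rw [hy]; push_cast; ring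
        exact Nat.cast_injective this
      rw [hn, join_odd]
      exact (eY m).1 hs
  · intro h
    rcases Nat.even_or_odd' n with ⟨k, rfl | rfl⟩
    · rw [join_even] at h
      exact Or.inl ⟨(k : M), by push_cast; ring, (eX k).2 h⟩
    · rw [join_odd] at h
      exact Or.inr ⟨(k : M), by push_cast; ring, (eY k).2 h⟩

end Pool.Agent.Helper227.EN
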