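import Pool.Agent.Helper227.ENJ.Defs
import Pool.Agent.Helper227.ENJ.P_dfn_bool
import Pool.Agent.Helper227.ENJ.P_dfn_subst
import Pool.Agent.Helper227.ENJ.P_trm_ops
import Pool.Agent.Helper227.ENJ.P_repE_blk
import Pool.Agent.Helper227.ENJ.P_repE

set_option autoImplicit false

open FirstOrder FirstOrder.Language


namespace Pool.Agent.Helper227.EN



theorem repTr {M : Type} [CommSemiring M] [LinearOrder M] [IsStrictOrderedRing M]
    [CanonicallyOrderedAdd M] [LA.Structure M] (hc : Compat M) (n : ℕ) : Tr M n ∈ RepM M := by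
  classical
  obtain ⟨S, hS, hS'⟩ := repE hc n
  obtain ⟨T, hT, hT'⟩ := repE_blk hc n S hS hS'
  obtain ⟨hvar, hcst, -⟩ := trm_ops hc
  refine ⟨fun z => T 0 0 0 z, ?_, ?_⟩
  · have h1 := dfn_subst (fun x : ℕ → M => T (x 0) (x 1) (x 2) (x 3)) hT
      (fun i x => if i < 3 then 0 else x 0) (by
        intro i
        by_cases hi : i < 3
        · have h2 := hcst 0
          simp only [if_pos hi]
          simpa using h2
        · simp only [if_neg hi]
          exact hvar 0)
    simpa using h1
  · intro z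
    have h1 := hT' 0 z 0 0 (fun i : ℕ => (i : M)) (Nat.cast_injective) (fun i hi => absurd hi (Nat.not_lt_zero i))
    rw [Nat.cast_zero] at h1
    show T 0 0 0 (z : M) ↔ Tr M n z = true
    rw [h1]
    unfold Tr
    rw [decide_eq_true_iff]
    constructor
    · rintro ⟨u, hu, b', hb', -, h⟩
      exact ⟨u, hu, b', hb', h⟩
    · rintro ⟨u, hu, b', hb', h⟩
      exact ⟨u, hu, b', hb', fun i hi => absurd hi (Nat.not_lt_zero i), h⟩

end Pool.Agent.Helper227.EN
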