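import Pool.Agent.Helper227.ENJ.Defs
import Pool.Agent.Helper227.ENJ.P_dfn_bool
import Pool.Agent.Helper227.ENJ.P_dfn_ex
import Pool.Agent.Helper227.ENJ.P_dfn_all
import Pool.Agent.Helper227.ENJ.P_dfn_subst
import Pool.Agent.Helper227.ENJ.P_trm_ops
import Pool.Agent.Helper227.ENJ.P_std_below
import Pool.Agent.Helper227.ENJ.P_repF_primrec
import Pool.Agent.Helper227.ENJ.P_repF_comp2

set_option autoImplicit false

open FirstOrder FirstOrder.Language


namespace Pool.Agent.Helper227.EN



/-- bits -/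
def rpbit (m i : ℕ) : Bool := (m / 2 ^ i).bodd

theorem rp_primrec_pow : Primrec₂ (fun a b : ℕ => a ^ b) := Primrec₂.unpaired'.1 Nat.Primrec.pow

theorem rp_primrec_two : Nat.Primrec (fun s : ℕ => 2 ^ s) :=
  Primrec.nat_iff.1 (rp_primrec_pow.comp (Primrec.const 2) Primrec.id)

theorem rp_primrec_bit : Primrec₂ rpbit :=
  Primrec.nat_bodd.comp (Primrec.nat_div.comp Primrec.fst
    (rp_primrec_pow.comp (Primrec.const 2) Primrec.snd))

theorem rp_primrec_bitN : Primrec₂ (fun m i : ℕ => (Encodable.encode (rpbit m i) : ℕ)) :=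
  Primrec.encode.comp rp_primrec_bit

theorem rp_primrec_F : Primrec₂ (fun s m : ℕ => (Encodable.encode (pre (rpbit m) s) : ℕ)) := by
  have h : Primrec (fun a : ℕ × ℕ => (List.range a.1).map (rpbit a.2)) :=
    Primrec.list_map (Primrec.list_range.comp Primrec.fst)
      (rp_primrec_bit.comp (Primrec.snd.comp Primrec.fst) Primrec.snd)
  exact Primrec.encode.comp h

theorem rp_exists (s : ℕ) (X : ℕ → Bool) : ∃ m < 2 ^ s, ∀ i < s, rpbit m i = X i := by
  induction s generalizing X with
  | zero => exact ⟨0, by norm_num, fun i hi => absurd hi (Nat.not_lt_zero i)⟩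
  | succ s ih =>
    obtain ⟨m, hm, hX⟩ := ih (fun i => X (i + 1))
    refine ⟨(if X 0 then 1 else 0) + 2 * m, ?_, fun i hi => ?_⟩
    · rw [pow_succ]
      split_ifs <;> omega
    · rcases i with _ | i
      · unfold rpbit
        rw [pow_zero, Nat.div_one, Nat.bodd_add, Nat.bodd_mul]
        cases X 0 <;> simp
      · rw [← hX i (by omega)]
        unfold rpbit
        have h1 : ((if X 0 then 1 else 0) + 2 * m) / 2 = m := by
          split_ifs <;> omega
        rw [pow_succ', ← Nat.div_div_eq_div_mul, h1]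

theorem rp_pre_congr (X Y : ℕ → Bool) (s : ℕ) (h : ∀ i < s, X i = Y i) : pre X s = pre Y s := by
  unfold pre
  apply List.map_congr_left
  intro i hi
  exact h i (List.mem_range.1 hi)

theorem rp_enc (b : Bool) : (Encodable.encode b : ℕ) = 1 ↔ b = true := by
  cases b <;> simp [Encodable.encode_true, Encodable.encode_false]

/-- The code of the initial segments of a set given by a formula (with parameters), uniformly:
`P w s y` defines, for standard `s`, the code of the string of length `s` of the truth values of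
`Q w 0, ..., Q w (s-1)`. -/
theorem rep_pre {M : Type} [CommSemiring M] [LinearOrder M] [IsStrictOrderedRing M]
    [CanonicallyOrderedAdd M] [LA.Structure M] (hc : Compat M) (Q : M → M → M → Prop)
    (hQ : Dfn (fun x : ℕ → M => Q (x 0) (x 1) (x 2))) :
    ∃ P : M → M → M → M → Prop, Dfn (fun x : ℕ → M => P (x 0) (x 1) (x 2) (x 3)) ∧
      ∀ (a c : M) (X : ℕ → Bool), (∀ i : ℕ, Q a c i ↔ X i = true) → ∀ (s : ℕ) (y : M),
        P a c s y ↔ y = (Encodable.encode (pre X s) : ℕ) := by
  obtain ⟨G2, hG2, hG2'⟩ := repF_primrec hc _ rp_primrec_two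
  obtain ⟨GB, hGB, hGB'⟩ := repF_comp2 hc _ rp_primrec_bitN
  obtain ⟨GF, hGF, hGF'⟩ := repF_comp2 hc _ rp_primrec_F
  obtain ⟨-, -, hand, -, himp, hiff⟩ := dfn_bool (M := M)
  obtain ⟨hvar, hnum, -, -, -, hlt, -⟩ := trm_ops hc
  refine ⟨fun a c s y => ∃ m, (∃ u, G2 s u ∧ m < u) ∧ (GF s m y ∧
    ∀ i, i < s → (GB m i ((1 : ℕ) : M) ↔ Q a c i)), ?_, ?_⟩
  · refine dfn_ex (fun x m => (∃ u, G2 (x 2) u ∧ m < u) ∧ (GF (x 2) m (x 3) ∧
      ∀ i, i < x 2 → (GB m i ((1 : ℕ) : M) ↔ Q (x 0) (x 1) i))) 4 ?_ ?_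
    · intro x y v
      simp [Function.update]
    · refine hand _ _ ?_ (hand _ _ ?_ ?_)
      · refine dfn_ex (fun x u => G2 (x 2) u ∧ x 4 < u) 5 ?_ ?_
        · intro x y v
          simp [Function.update]
        · refine hand _ _ ?_ (hlt _ _ (hvar 4) (hvar 5))
          exact dfn_subst (fun x => G2 (x 0) (x 1)) hG2
            (fun i x => x (if i = 0 then 2 else 5)) (fun i => hvar _)
      · exact dfn_subst (fun x => GF (x 0) (x 1) (x 2)) hGF
            (fun i x => x (if i = 0 then 2 else if i = 1 then 4 else 3)) (fun i => hvar _)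
      · refine dfn_all (fun x i => i < x 2 → (GB (x 4) i ((1 : ℕ) : M) ↔ Q (x 0) (x 1) i)) 5
          ?_ ?_
        · intro x y v
          simp [Function.update]
        · refine himp _ _ (hlt _ _ (hvar 5) (hvar 2)) (hiff _ _ ?_ ?_)
          · exact dfn_subst (fun x => GB (x 0) (x 1) (x 2)) hGB
              (fun i => if i = 0 then (fun x => x 4) else if i = 1 then (fun x => x 5) else
                (fun _ => ((1 : ℕ) : M))) (fun i => by
                split_ifs
                · exact hvar 4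
                · exact hvar 5
                · exact hnum 1)
          · exact dfn_subst (fun x => Q (x 0) (x 1) (x 2)) hQ
              (fun i x => x (if i = 0 then 0 else if i = 1 then 1 else 5)) (fun i => hvar _)
  · intro a c X hX s y
    have hbit : ∀ (m i : ℕ), GB (m : M) (i : M) ((1 : ℕ) : M) ↔ rpbit m i = true := by
      intro m i
      rw [hGB', Nat.cast_inj, eq_comm, rp_enc]
    constructor
    · rintro ⟨m, ⟨u, hu, hmu⟩, hF, hall⟩
      rw [hG2'] at hu
      rw [hu] at hmu
      obtain ⟨m0, -, rfl⟩ := std_below hc _ m hmu.le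
      rw [hGF'] at hF
      rw [hF]
      congr 2
      apply rp_pre_congr
      intro i hi
      have h1 := hall (i : M) (Nat.cast_lt.2 hi)
      rw [hbit, hX] at h1
      exact Bool.eq_iff_iff.2 h1
    · rintro rfl
      obtain ⟨m, hm, hmX⟩ := rp_exists s X
      refine ⟨(m : M), ⟨((2 ^ s : ℕ) : M), (hG2' s _).2 rfl, Nat.cast_lt.2 hm⟩, ?_, ?_⟩
      · rw [hGF']
        congr 2
        apply rp_pre_congr
        intro i hi
        exact (hmX i hi).symm
      · intro i hi
        obtain ⟨i0, -, rfl⟩ := std_below hc s i hi.le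
        have hi0 : i0 < s := Nat.cast_lt.1 hi
        rw [hbit, hX, hmX i0 hi0]

end Pool.Agent.Helper227.EN
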