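import Pool.Agent.Helper227.ENJ.Defs
import Pool.Agent.Helper227.ENJ.P_dfn_bool
import Pool.Agent.Helper227.ENJ.P_dfn_ex
import Pool.Agent.Helper227.ENJ.P_dfn_all
import Pool.Agent.Helper227.ENJ.P_dfn_subst
import Pool.Agent.Helper227.ENJ.P_trm_ops
import Pool.Agent.Helper227.ENJ.P_std_below
import Pool.Agent.Helper227.ENJ.P_repF_pair
import Pool.Agent.Helper227.ENJ.P_repF_primrec
import Pool.Agent.Helper227.ENJ.P_rep_pre

set_option autoImplicit false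

open FirstOrder FirstOrder.Language


namespace Pool.Agent.Helper227.EN



theorem rep_class_s4 {M : Type} [LA.Structure M] (R : M → M → M → M → Prop)
    (h : Dfn (fun x : ℕ → M => R (x 0) (x 1) (x 2) (x 3))) (f0 f1 f2 f3 : (ℕ → M) → M)
    (h0 : Trm f0) (h1 : Trm f1) (h2 : Trm f2) (h3 : Trm f3) :
    Dfn (fun x => R (f0 x) (f1 x) (f2 x) (f3 x)) :=
  dfn_subst _ h (fun i => match i with | 0 => f0 | 1 => f1 | 2 => f2 | _ => f3)
    (fun i => match i with | 0 => h0 | 1 => h1 | 2 => h2 | _ + 3 => h3)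

theorem rep_class_s3 {M : Type} [LA.Structure M] (R : M → M → M → Prop)
    (h : Dfn (fun x : ℕ → M => R (x 0) (x 1) (x 2))) (f0 f1 f2 : (ℕ → M) → M)
    (h0 : Trm f0) (h1 : Trm f1) (h2 : Trm f2) :
    Dfn (fun x => R (f0 x) (f1 x) (f2 x)) :=
  dfn_subst _ h (fun i => match i with | 0 => f0 | 1 => f1 | _ => f2)
    (fun i => match i with | 0 => h0 | 1 => h1 | _ + 2 => h2)

theorem rep_class_s2 {M : Type} [LA.Structure M] (R : M → M → Prop)
    (h : Dfn (fun x : ℕ → M => R (x 0) (x 1))) (f0 f1 : (ℕ → M) → M)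
    (h0 : Trm f0) (h1 : Trm f1) :
    Dfn (fun x => R (f0 x) (f1 x)) :=
  dfn_subst _ h (fun i => match i with | 0 => f0 | _ => f1)
    (fun i => match i with | 0 => h0 | _ + 1 => h1)

theorem rep_class_s1 {M : Type} [LA.Structure M] (R : M → Prop)
    (h : Dfn (fun x : ℕ → M => R (x 0))) (f0 : (ℕ → M) → M) (h0 : Trm f0) :
    Dfn (fun x => R (f0 x)) :=
  dfn_subst _ h (fun _ => f0) (fun _ => h0)

theorem rep_class {M : Type} [CommSemiring M] [LinearOrder M] [IsStrictOrderedRing M]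
    [CanonicallyOrderedAdd M] [LA.Structure M] (hc : Compat M) (W : ℕ → Bool) (hW : W ∈ RepM M)
    (F : ℕ → ℕ) (hF : Nat.Primrec F) :
    ∃ B : M → M → Prop, Dfn (fun x : ℕ → M => B (x 0) (x 1)) ∧
      ∀ k y : ℕ, B k y ↔ ∀ i ≤ k, ∀ n ≤ k,
        F (Nat.pair n (Nat.pair (Encodable.encode (pre W i)) (Nat.pair y i))) = 0 := by
  obtain ⟨SW, hSW, hSW'⟩ := hW
  obtain ⟨bc, bnot, band, bor, bimp, biff⟩ := dfn_bool (M := M)
  obtain ⟨tv, tn, tadd', tmul', teq, tlt, tle⟩ := trm_ops hc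
  obtain ⟨P, hP, hP'⟩ := rep_pre hc (fun _ _ i => SW i)
    (rep_class_s1 SW hSW (fun x => x 2) (tv 2))
  obtain ⟨GP, hGP, hGP', -⟩ := repF_pair hc
  obtain ⟨GF, hGF, hGF'⟩ := repF_primrec hc F hF
  have t0 : Trm (fun _ : ℕ → M => (0 : M)) := by
    have := tn 0
    simpa using this
  refine ⟨fun k y => ∀ i, i ≤ k → ∀ n, n ≤ k → ∀ w p q r,
    (P 0 0 i w ∧ GP y i p ∧ GP w p q ∧ GP n q r) → GF r 0, ?_, ?_⟩
  · have dP : Dfn (fun x : ℕ → M => P 0 0 (x 2) (x 4)) :=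
      rep_class_s4 P hP (fun _ => 0) (fun _ => 0) (fun x => x 2) (fun x => x 4) t0 t0 (tv 2) (tv 4)
    have d1 : Dfn (fun x : ℕ → M => GP (x 1) (x 2) (x 5)) :=
      rep_class_s3 GP hGP (fun x => x 1) (fun x => x 2) (fun x => x 5) (tv 1) (tv 2) (tv 5)
    have d2 : Dfn (fun x : ℕ → M => GP (x 4) (x 5) (x 6)) :=
      rep_class_s3 GP hGP (fun x => x 4) (fun x => x 5) (fun x => x 6) (tv 4) (tv 5) (tv 6)
    have d3 : Dfn (fun x : ℕ → M => GP (x 3) (x 6) (x 7)) :=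
      rep_class_s3 GP hGP (fun x => x 3) (fun x => x 6) (fun x => x 7) (tv 3) (tv 6) (tv 7)
    have d4 : Dfn (fun x : ℕ → M => GF (x 7) 0) :=
      rep_class_s2 GF hGF (fun x => x 7) (fun _ => 0) (tv 7) t0
    have D8 : Dfn (fun x : ℕ → M => (P 0 0 (x 2) (x 4) ∧ GP (x 1) (x 2) (x 5) ∧
        GP (x 4) (x 5) (x 6) ∧ GP (x 3) (x 6) (x 7)) → GF (x 7) 0) :=
      bimp _ _ (band _ _ dP (band _ _ d1 (band _ _ d2 d3))) d4
    have D7 : Dfn (fun x : ℕ → M => ∀ r, (P 0 0 (x 2) (x 4) ∧ GP (x 1) (x 2) (x 5) ∧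
        GP (x 4) (x 5) (x 6) ∧ GP (x 3) (x 6) r) → GF r 0) :=
      dfn_all (fun x r => (P 0 0 (x 2) (x 4) ∧ GP (x 1) (x 2) (x 5) ∧
        GP (x 4) (x 5) (x 6) ∧ GP (x 3) (x 6) r) → GF r 0) 7
        (fun x y v => by simp [Function.update_apply]) D8
    have D6 : Dfn (fun x : ℕ → M => ∀ q r, (P 0 0 (x 2) (x 4) ∧ GP (x 1) (x 2) (x 5) ∧
        GP (x 4) (x 5) q ∧ GP (x 3) q r) → GF r 0) :=
      dfn_all (fun x q => ∀ r, (P 0 0 (x 2) (x 4) ∧ GP (x 1) (x 2) (x 5) ∧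
        GP (x 4) (x 5) q ∧ GP (x 3) q r) → GF r 0) 6
        (fun x y v => by simp [Function.update_apply]) D7
    have D5 : Dfn (fun x : ℕ → M => ∀ p q r, (P 0 0 (x 2) (x 4) ∧ GP (x 1) (x 2) p ∧
        GP (x 4) p q ∧ GP (x 3) q r) → GF r 0) :=
      dfn_all (fun x p => ∀ q r, (P 0 0 (x 2) (x 4) ∧ GP (x 1) (x 2) p ∧
        GP (x 4) p q ∧ GP (x 3) q r) → GF r 0) 5
        (fun x y v => by simp [Function.update_apply]) D6
    have D4 : Dfn (fun x : ℕ → M => ∀ w p q r, (P 0 0 (x 2) w ∧ GP (x 1) (x 2) p ∧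
        GP w p q ∧ GP (x 3) q r) → GF r 0) :=
      dfn_all (fun x w => ∀ p q r, (P 0 0 (x 2) w ∧ GP (x 1) (x 2) p ∧
        GP w p q ∧ GP (x 3) q r) → GF r 0) 4
        (fun x y v => by simp [Function.update_apply]) D5
    have D3a := bimp _ _ (tle (fun x => x 3) (fun x => x 0) (tv 3) (tv 0)) D4
    have D3 : Dfn (fun x : ℕ → M => ∀ n, n ≤ x 0 → ∀ w p q r, (P 0 0 (x 2) w ∧ GP (x 1) (x 2) p ∧
        GP w p q ∧ GP n q r) → GF r 0) :=
      dfn_all (fun x n => n ≤ x 0 → ∀ w p q r, (P 0 0 (x 2) w ∧ GP (x 1) (x 2) p ∧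
        GP w p q ∧ GP n q r) → GF r 0) 3
        (fun x y v => by simp [Function.update_apply]) D3a
    have D2a := bimp _ _ (tle (fun x => x 2) (fun x => x 0) (tv 2) (tv 0)) D3
    exact dfn_all (fun x i => i ≤ x 0 → ∀ n, n ≤ x 0 → ∀ w p q r, (P 0 0 i w ∧ GP (x 1) i p ∧
        GP w p q ∧ GP n q r) → GF r 0) 2
        (fun x y v => by simp [Function.update_apply]) D2a
  · intro k y
    have hPW := hP' 0 0 W hSW'
    constructor
    · intro h i hi n hn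
      have h1 := h (i : M) (by exact_mod_cast hi) (n : M) (by exact_mod_cast hn)
        ((Encodable.encode (pre W i) : ℕ) : M) ((Nat.pair y i : ℕ) : M)
        ((Nat.pair (Encodable.encode (pre W i)) (Nat.pair y i) : ℕ) : M)
        ((Nat.pair n (Nat.pair (Encodable.encode (pre W i)) (Nat.pair y i)) : ℕ) : M)
        ⟨(hPW i _).mpr rfl, (hGP' y i _).mpr rfl, (hGP' _ _ _).mpr rfl, (hGP' _ _ _).mpr rfl⟩
      rw [hGF'] at h1
      exact_mod_cast h1.symm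
    · intro h i hi n hn w p q r hh
      obtain ⟨i', hi', rfl⟩ := std_below hc k i hi
      obtain ⟨n', hn', rfl⟩ := std_below hc k n hn
      obtain ⟨e1, e2, e3, e4⟩ := hh
      rw [hPW] at e1
      rw [hGP'] at e2
      subst e1
      subst e2
      rw [hGP'] at e3
      subst e3
      rw [hGP'] at e4
      subst e4
      rw [hGF', h i' hi' n' hn']
      simp

end Pool.Agent.Helper227.EN
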