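import Pool.Agent.Helper227.ENJ.Defs
import Pool.Agent.Helper227.ENJ.P_dfn_bool
import Pool.Agent.Helper227.ENJ.P_dfn_ex
import Pool.Agent.Helper227.ENJ.P_dfn_all
import Pool.Agent.Helper227.ENJ.P_dfn_subst
import Pool.Agent.Helper227.ENJ.P_trm_ops
import Pool.Agent.Helper227.ENJ.P_std_below
import Pool.Agent.Helper227.ENJ.P_beta_unique
import Pool.Agent.Helper227.ENJ.P_beta_exists
import Pool.Agent.Helper227.ENJ.P_dfn_beta
import Pool.Agent.Helper227.ENJ.P_rep_pre
import Pool.Agent.Helper227.ENJ.P_path_def

set_option autoImplicit false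

open FirstOrder FirstOrder.Language


namespace Pool.Agent.Helper227.EN



/-- Weak Koenig's lemma inside the family of sets coded by formulas. -/
theorem rep_path {M : Type} [CommSemiring M] [LinearOrder M] [IsStrictOrderedRing M]
    [CanonicallyOrderedAdd M] [LA.Structure M] (hc : Compat M) (B : M → M → Prop)
    (hB : Dfn (fun x : ℕ → M => B (x 0) (x 1))) (χ : ℕ → ℕ → Prop)
    (hχ : ∀ (k : ℕ) (y : ℕ), B k y ↔ χ k y) (Z : ℕ → Bool)
    (hZ : ∀ s, χ s (Encodable.encode (pre Z s))) :
    ∃ Y ∈ RepM M, ∀ s, χ s (Encodable.encode (pre Y s)) := by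
  classical
  have hQ : Dfn (fun x : ℕ → M => Beta (x 0) (x 1) (x 2) 1) := by
    have h := dfn_subst (M := M) _ (dfn_beta hc)
      (fun i x => if i = 0 then x 0 else if i = 1 then x 1 else if i = 2 then x 2 else ((1 : ℕ) : M))
      (by
        intro i
        by_cases h0 : i = 0
        · subst h0; simpa using (trm_ops hc).1 0
        by_cases h1 : i = 1
        · subst h1; simpa using (trm_ops hc).1 1
        by_cases h2 : i = 2
        · subst h2; simpa using (trm_ops hc).1 2
        · have := (trm_ops (M := M) hc).2.1 1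
          simpa [h0, h1, h2] using this)
    simpa using h
  obtain ⟨P, hPd, hP⟩ := rep_pre hc (fun a c i => Beta a c i 1) hQ
  let Good : M → M → M → Prop := fun a c k => ∀ s, s ≤ k → ∃ y, P a c s y ∧ B s y
  let I : M → Prop := fun k => ∃ a c, Good a c k
  have hPs : ∀ i j k l : ℕ, Dfn (fun x : ℕ → M => P (x i) (x j) (x k) (x l)) := by
    intro i j k l
    have h := dfn_subst (M := M) _ hPd
      (fun n x => if n = 0 then x i else if n = 1 then x j else if n = 2 then x k else x l)
      (by
        intro n
        by_cases h0 : n = 0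
        · subst h0; simpa using (trm_ops hc).1 i
        by_cases h1 : n = 1
        · subst h1; simpa using (trm_ops hc).1 j
        by_cases h2 : n = 2
        · subst h2; simpa using (trm_ops hc).1 k
        · simpa [h0, h1, h2] using (trm_ops hc).1 l)
    simpa using h
  have hBs : ∀ i j : ℕ, Dfn (fun x : ℕ → M => B (x i) (x j)) := by
    intro i j
    have h := dfn_subst (M := M) _ hB
      (fun n x => if n = 0 then x i else x j)
      (by
        intro n
        by_cases h0 : n = 0
        · subst h0; simpa using (trm_ops hc).1 i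
        · simpa [h0] using (trm_ops hc).1 j)
    simpa using h
  have hle : Dfn (fun x : ℕ → M => x 3 ≤ x 2) :=
    (trm_ops hc).2.2.2.2.2.2 _ _ ((trm_ops hc).1 3) ((trm_ops hc).1 2)
  have hGd : Dfn (fun x : ℕ → M => Good (x 0) (x 1) (x 2)) := by
    refine dfn_all (fun x s => s ≤ x 2 → ∃ y, P (x 0) (x 1) s y ∧ B s y) 3 ?_ ?_
    · intro x y v
      simp [Function.update]
    · refine dfn_bool.2.2.2.2.1 _ _ hle ?_
      refine dfn_ex (fun x y => P (x 0) (x 1) (x 3) y ∧ B (x 3) y) 4 ?_ ?_
      · intro x y v
        simp [Function.update]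
      · exact dfn_bool.2.2.1 _ _ (hPs 0 1 3 4) (hBs 3 4)
  have hGs : Dfn (fun x : ℕ → M => Good (x 1) (x 2) (x 0)) := by
    have h := dfn_subst (M := M) _ hGd
      (fun n x => if n = 0 then x 1 else if n = 1 then x 2 else x 0)
      (by
        intro n
        by_cases h0 : n = 0
        · subst h0; simpa using (trm_ops hc).1 1
        by_cases h1 : n = 1
        · subst h1; simpa using (trm_ops hc).1 2
        · simpa [h0, h1] using (trm_ops hc).1 0)
    simpa using h
  have hId : Dfn (fun x : ℕ → M => I (x 0)) := by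
    refine dfn_ex (fun x a => ∃ c, Good a c (x 0)) 1 ?_ ?_
    · intro x y v
      simp [Function.update]
    · refine dfn_ex (fun x c => Good (x 1) c (x 0)) 2 ?_ ?_
      · intro x y v
        simp [Function.update]
      · exact hGs
  have hG : ∀ a c k k', k' ≤ k → Good a c k → Good a c k' :=
    fun a c k k' hk h s hs => h s (hs.trans hk)
  have hI : ∀ k k', I k → I k' → I (max k k') := by
    intro k k' h h'
    rcases le_total k k' with hk | hk
    · rwa [max_eq_right hk]
    · rwa [max_eq_left hk]
  obtain ⟨Y, hY, hYp⟩ := path_def hc Good hGd I hId hG hI (fun k h => h)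
  have key : ∀ (a c : M) (W : ℕ → Bool) (s : ℕ), (∀ i < s, (Beta a c (i : M) 1 ↔ W i = true)) →
      ∀ y : M, P a c s y ↔ y = (Encodable.encode (pre W s) : ℕ) := by
    intro a c W s hW y
    have h1 := hP a c (fun i => decide (Beta a c (i : M) 1)) (fun i => by simp) s y
    have h2 : pre (fun i => decide (Beta a c (i : M) 1)) s = pre W s := by
      unfold pre
      apply List.map_congr_left
      intro i hi
      have hi' : i < s := by simpa using hi
      have := hW i hi'
      by_cases hb : Beta a c (i : M) 1
      · simp [hb, this.1 hb]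
      · have hw : W i = false := by
          by_contra hne
          exact hb (this.2 (by simpa using hne))
        simp [hb, hw]
    rw [h1, h2]
  refine ⟨Y, hY, ?_⟩
  intro s
  have hIs : I (s : M) := by
    obtain ⟨a, c, hac⟩ := beta_exists hc.disc s (fun i => if Z i = true then (1 : M) else 0)
    refine ⟨a, c, ?_⟩
    intro s' hs'
    obtain ⟨m, hm, rfl⟩ := std_below hc s s' hs'
    refine ⟨((Encodable.encode (pre Z m) : ℕ) : M), ?_, (hχ m _).2 (hZ m)⟩
    refine (key a c Z m ?_ _).2 rfl
    intro i hi
    have h3 := hac i (lt_of_lt_of_le hi hm)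
    by_cases hz : Z i = true
    · simp only [hz, if_true] at h3
      simp [h3, hz]
    · simp only [hz] at h3
      constructor
      · intro h4
        exfalso
        have h5 := beta_unique hc.disc a c (i : M) _ _ h3 h4
        simp at h5
      · intro h4
        exact absurd h4 hz
  obtain ⟨a, c, hgood, hac⟩ := hYp s (s : M) hIs
  obtain ⟨y, hy1, hy2⟩ := hgood (s : M) le_rfl
  have hy3 := (key a c Y s hac y).1 hy1
  rw [hy3] at hy2
  exact (hχ s _).1 hy2

end Pool.Agent.Helper227.EN
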