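import Pool.Agent.Helper227.ENJ.Defs
import Pool.Agent.Helper227.ENJ.P_dfn_bool
import Pool.Agent.Helper227.ENJ.P_dfn_ex
import Pool.Agent.Helper227.ENJ.P_dfn_subst
import Pool.Agent.Helper227.ENJ.P_trm_ops
import Pool.Agent.Helper227.ENJ.P_repF_primrec
import Pool.Agent.Helper227.ENJ.P_repF_comp2

set_option autoImplicit false

open FirstOrder FirstOrder.Language


namespace Pool.Agent.Helper227.EN



/-- length of the decoded string plus one -/
def rep_str_len (m : ℕ) : ℕ :=
  Option.casesOn (Encodable.decode m : Option (List Bool)) 0 (fun u => u.length + 1)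

theorem rep_str_len_prim : Nat.Primrec rep_str_len := by
  rw [← Primrec.nat_iff]
  unfold rep_str_len
  exact Primrec.option_casesOn Primrec.decode (Primrec.const 0)
    (Primrec.succ.comp (Primrec.list_length.comp Primrec.snd)).to₂

/-- bits of the decoded string -/
def rep_str_bit (m j : ℕ) : ℕ :=
  bif ((Encodable.decode m : Option (List Bool)).getD []).getD j false then 1 else 0

theorem rep_str_bit_prim : Primrec₂ rep_str_bit := by
  have h1 : Primrec (fun p : ℕ × ℕ =>
      ((Encodable.decode p.1 : Option (List Bool)).getD []).getD p.2 false) :=
    (Primrec.list_getD false).comp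
      (Primrec.option_getD.comp (Primrec.decode.comp Primrec.fst) (Primrec.const [])) Primrec.snd
  exact Primrec.cond h1 (Primrec.const 1) (Primrec.const 0)

/-- decoding of strings is representable -/
theorem rep_str {M : Type} [CommSemiring M] [LinearOrder M] [IsStrictOrderedRing M]
    [CanonicallyOrderedAdd M] [LA.Structure M] (hc : Compat M) :
    ∃ V Bt : M → M → Prop, Dfn (fun x : ℕ → M => V (x 0) (x 1)) ∧
      Dfn (fun x : ℕ → M => Bt (x 0) (x 1)) ∧
      (∀ (m : ℕ) (l : M), V m l ↔
        ∃ u : List Bool, (Encodable.decode m : Option (List Bool)) = some u ∧ l = (u.length : M)) ∧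
      (∀ m j : ℕ, Bt m j ↔
        ∃ u : List Bool, (Encodable.decode m : Option (List Bool)) = some u ∧ u.getD j false = true) := by
  obtain ⟨F, hF1, hF2⟩ := repF_primrec hc rep_str_len rep_str_len_prim
  obtain ⟨G, hG1, hG2⟩ := repF_comp2 hc rep_str_bit rep_str_bit_prim
  obtain ⟨tv, tn, ta, tm, -, -, -⟩ := trm_ops hc
  refine ⟨fun m l => F m (l + 1), fun m j => G m j 1, ?_, ?_, ?_, ?_⟩
  · have h := dfn_subst (fun x : ℕ → M => F (x 0) (x 1)) hF1
      (fun i x => if i = 1 then x 1 + 1 else x i) (by
        intro i
        by_cases hi : i = 1
        · simp only [hi, if_true]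
          have h1 := tn 1
          rw [Nat.cast_one] at h1
          exact ta _ _ (tv 1) h1
        · simp only [hi, if_false]
          exact tv i)
    simpa using h
  · have h := dfn_subst (fun x : ℕ → M => G (x 0) (x 1) (x 2)) hG1
      (fun i x => if i = 2 then 1 else x i) (by
        intro i
        by_cases hi : i = 2
        · simp only [hi, if_true]
          have h1 := tn 1
          rw [Nat.cast_one] at h1
          exact h1
        · simp only [hi, if_false]
          exact tv i)
    simpa using h
  · intro m l
    show F m (l + 1) ↔ _
    rw [hF2]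
    unfold rep_str_len
    cases hd : (Encodable.decode m : Option (List Bool)) with
    | none =>
      constructor
      · intro h
        exfalso
        have h2 : (0 : M) < l + 1 := lt_of_lt_of_le one_pos le_add_self
        have h3 : l + 1 = (0 : M) := by simpa using h
        rw [h3] at h2
        exact lt_irrefl _ h2
      · rintro ⟨u, hu, -⟩
        exact absurd hu (by simp)
    | some u =>
      show l + 1 = ((u.length + 1 : ℕ) : M) ↔ _
      constructor
      · intro h
        refine ⟨u, rfl, ?_⟩
        rw [Nat.cast_add, Nat.cast_one] at h
        exact add_right_cancel h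
      · rintro ⟨u', hu', hl⟩
        rw [Option.some.injEq] at hu'
        rw [hl, ← hu', Nat.cast_add, Nat.cast_one]
  · intro m j
    show G m j 1 ↔ _
    rw [hG2]
    unfold rep_str_bit
    cases hd : (Encodable.decode m : Option (List Bool)) with
    | none =>
      constructor
      · intro h
        exfalso
        simp at h
      · rintro ⟨u, hu, -⟩
        exact absurd hu (by simp)
    | some u =>
      rw [Option.getD_some]
      constructor
      · intro h
        refine ⟨u, rfl, ?_⟩
        by_contra hcon
        rw [Bool.not_eq_true] at hcon
        rw [hcon] at h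
        simp at h
      · rintro ⟨u', hu', hl⟩
        rw [Option.some.injEq] at hu'
        rw [hu', hl]
        simp

end Pool.Agent.Helper227.EN
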