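import Pool.Agent.Helper227.ENJ.Defs
import Pool.Agent.Helper227.ENJ.P_inj_extend

set_option autoImplicit false

open FirstOrder FirstOrder.Language


namespace Pool.Agent.Helper227.EN



theorem sp_real_zero {M : Type} [LA.Structure M] :
    ((num 0 : LA.Term Empty).realize (default : Empty → M)) =
      Structure.funMap (L := LA) AF.zero ![] := by
  have h : (default : Fin 0 → M) = ![] := Subsingleton.elim _ _
  rw [← h]
  exact Term.realize_constants (L := LA)

theorem sp_real_one {M : Type} [LA.Structure M] :
    ((t1 : LA.Term Empty).realize (default : Empty → M)) =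
      Structure.funMap (L := LA) AF.one ![] := by
  have h : (default : Fin 0 → M) = ![] := Subsingleton.elim _ _
  rw [← h]
  exact Term.realize_constants (L := LA)

theorem sp_real_succ {M : Type} [LA.Structure M] (n : ℕ) :
    ((num (n + 1) : LA.Term Empty).realize (default : Empty → M)) =
      Structure.funMap (L := LA) AF.add ![(num n : LA.Term Empty).realize (default : Empty → M),
        (Structure.funMap (L := LA) AF.one ![] : M)] := by
  rw [← sp_real_one]
  exact Term.realize_functions_apply₂ (L := LA)

theorem sp_real_d0 {M : Type} [LA.Structure M] (b : ℕ → M) (i j l : ℕ)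
    (h : Structure.funMap (L := LA) AF.add ![b i, b j] = b l) : Dg b (cd 0 i j l) = true := by
  simp only [Dg, cd, Nat.unpair_pair]
  simpa using h

theorem sp_real_d3 {M : Type} [LA.Structure M] (b : ℕ → M) (i j l : ℕ)
    (h : Structure.funMap (L := LA) AF.zero ![] = b i) : Dg b (cd 3 i j l) = true := by
  simp only [Dg, cd, Nat.unpair_pair]
  simpa using h

theorem sp_real_d4 {M : Type} [LA.Structure M] (b : ℕ → M) (i j l : ℕ)
    (h : Structure.funMap (L := LA) AF.one ![] = b i) : Dg b (cd 4 i j l) = true := by
  simp only [Dg, cd, Nat.unpair_pair]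
  simpa using h

/-- if `b 0` is the value of a numeral then the diagram of some `b'` with the same `0`-th element
shows this -/
theorem sp_real {M : Type} [LA.Structure M] [Infinite M] (b : ℕ → M)
    (hi : Function.Injective (fun m : ℕ => (num m : LA.Term Empty).realize (default : Empty → M)))
    (m : ℕ) (hb : b 0 = (num m : LA.Term Empty).realize (default : Empty → M)) :
    ∃ b' : ℕ → M, Function.Injective b' ∧ b' 0 = b 0 ∧ SP (Dg b') := by
  classical
  set v : ℕ → M := fun m : ℕ => (num m : LA.Term Empty).realize (default : Empty → M) with hv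
  set o : M := Structure.funMap (L := LA) AF.one ![] with ho
  have hsucc : ∀ n, v (n + 1) = Structure.funMap (L := LA) AF.add ![v n, o] := fun n =>
    sp_real_succ n
  have hzero : v 0 = Structure.funMap (L := LA) AF.zero ![] := sp_real_zero
  have hw : ∃ w : ℕ → M, Function.Injective w ∧ (∀ i ≤ m, w i = v i) ∧ ∃ k, w k = o := by
    by_cases hk : ∃ k, v k = o
    · exact ⟨v, hi, fun _ _ => rfl, hk⟩
    · push Not at hk
      refine ⟨Function.update v (m + 1) o, ?_, ?_, m + 1, Function.update_self _ _ _⟩
      · intro x y hxy
        by_cases hx : x = m + 1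
        · by_cases hy : y = m + 1
          · rw [hx, hy]
          · rw [hx, Function.update_self, Function.update_of_ne hy] at hxy
            exact absurd hxy.symm (hk y)
        · by_cases hy : y = m + 1
          · rw [hy, Function.update_self, Function.update_of_ne hx] at hxy
            exact absurd hxy (hk x)
          · rw [Function.update_of_ne hx, Function.update_of_ne hy] at hxy
            exact hi hxy
      · intro i hi'
        exact Function.update_of_ne (by omega) _ _
  obtain ⟨w, hwi, hwv, k, hk⟩ := hw
  have hb' : ∀ i, (w ∘ Equiv.swap 0 m) (Equiv.swap 0 m i) = w i := by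
    intro i
    simp
  refine ⟨w ∘ Equiv.swap 0 m, hwi.comp (Equiv.injective _), ?_, ?_⟩
  · rw [Function.comp_apply, Equiv.swap_apply_left, hwv m le_rfl, hb]
  · have hL : ∀ i, i ≤ m → ((List.range (m + 1)).map (Equiv.swap 0 m)).getD i 0 =
        Equiv.swap 0 m i := by
      intro i hi'
      have : i < ((List.range (m + 1)).map (Equiv.swap 0 m)).length := by simp; omega
      rw [List.getD_eq_getElem _ _ this]
      simp
    refine ⟨(List.range (m + 1)).map (Equiv.swap 0 m), Equiv.swap 0 m k, ?_, ?_, ?_, ?_⟩
    · apply sp_real_d3
      rw [hL 0 (Nat.zero_le _), hb', hwv 0 (Nat.zero_le _), hzero]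
    · apply sp_real_d4
      rw [hb', hk]
    · intro i hi'
      have hi2 : i + 1 ≤ m := by
        simp at hi'
        omega
      apply sp_real_d0
      rw [hL i (by omega), hL (i + 1) hi2, hb', hb', hb', hwv i (by omega), hwv (i + 1) hi2, hk,
        hsucc]
    · rw [List.range_succ, List.map_append]
      simp

end Pool.Agent.Helper227.EN
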