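import Pool.Agent.Helper227.ENJ.Defs

set_option autoImplicit false

open FirstOrder FirstOrder.Language


namespace Pool.Agent.Helper227.EN



theorem j17630_data (A : LA.Structure ℕ) (h : Nonempty (@FirstOrder.Language.Equiv LA ℕ ℕ A stdStr)) :
    ∃ e : ℕ ≃ ℕ, (∀ x y, e (@Structure.funMap LA ℕ A 2 AF.add ![x, y]) = e x + e y) ∧
      e (@Structure.funMap LA ℕ A 0 AF.zero ![]) = 0 ∧
      e (@Structure.funMap LA ℕ A 0 AF.one ![]) = 1 := by
  obtain ⟨e⟩ := h
  exact ⟨@FirstOrder.Language.Equiv.toEquiv LA ℕ ℕ A stdStr e,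
    fun x y => @FirstOrder.Language.Equiv.map_fun' LA ℕ ℕ A stdStr e 2 AF.add ![x, y],
    @FirstOrder.Language.Equiv.map_fun' LA ℕ ℕ A stdStr e 0 AF.zero ![],
    @FirstOrder.Language.Equiv.map_fun' LA ℕ ℕ A stdStr e 0 AF.one ![]⟩

/-- the diagram of a copy of the standard model shows that every element is standard -/
theorem sp_std (A : LA.Structure ℕ)
    (h : Nonempty (@FirstOrder.Language.Equiv LA ℕ ℕ A stdStr)) : SP (diag A) := by
  obtain ⟨e, e1, e2, e3⟩ := j17630_data A h
  set s : ℕ → ℕ := fun n => e.symm n with hs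
  have hes : ∀ n, e (s n) = n := fun n => e.apply_symm_apply n
  have hz : @Structure.funMap LA ℕ A 0 AF.zero ![] = s 0 := by
    apply e.injective
    rw [e2, hes]
  have ho : @Structure.funMap LA ℕ A 0 AF.one ![] = s 1 := by
    apply e.injective
    rw [e3, hes]
  have ha : ∀ i, @Structure.funMap LA ℕ A 2 AF.add ![s i, s 1] = s (i + 1) := by
    intro i
    apply e.injective
    rw [e1, hes, hes, hes]
  have hget : ∀ i, i < e 0 + 1 →
      ((List.range (e 0 + 1)).map s).getD i 0 = s i := by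
    intro i hi
    simp [List.getD, hi]
  refine ⟨(List.range (e 0 + 1)).map s, s 1, ?_, ?_, ?_, ?_⟩
  · rw [hget 0 (by omega)]
    simp [diag, Dg, cd, hz]
  · simp [diag, Dg, cd, ho]
  · intro i hi
    have hi' : i + 1 < e 0 + 1 := by simpa using hi
    rw [hget i (by omega), hget (i + 1) hi']
    simp [diag, Dg, cd, ha]
  · rw [List.range_succ, List.map_append]
    simp [hs]

end Pool.Agent.Helper227.EN
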