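import Pool.Agent.Helper227.ENJ.Defs
import Pool.Agent.Helper227.ENJ.P_inj_extend

set_option autoImplicit false

open FirstOrder FirstOrder.Language


namespace Pool.Agent.Helper227.EN



/-- every injective sequence of elements of the ultrapower is given by injective sequences -/
theorem up_rep {M : Type} [Infinite M] (b : ℕ → UP M) (hb : Function.Injective b) :
    ∃ β : ℕ → ℕ → M, (∀ N, Function.Injective (β N)) ∧ b = ups β := by
  classical
  choose r hr using fun i => Quotient.exists_rep (b i)
  have hmk : ∀ x y : ℕ → M, ((x : UP M) = (y : UP M)) ↔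
      ∀ᶠ N in ((Filter.hyperfilter ℕ : Ultrafilter ℕ) : Filter ℕ), x N = y N := by
    intro x y
    exact Quotient.eq
  have hr' : ∀ i, ((r i : ℕ → M) : UP M) = b i := hr
  let P : ℕ → ℕ → Prop := fun N K => ∀ i < K, ∀ j < K, r i N = r j N → i = j
  let K : ℕ → ℕ := fun N => Nat.findGreatest (P N) N
  have hP0 : ∀ N, P N 0 := fun N i hi => absurd hi (Nat.not_lt_zero i)
  have hPK : ∀ N, P N (K N) := fun N => Nat.findGreatest_spec (P := P N) (Nat.zero_le N) (hP0 N)
  choose β hβ1 hβ2 using fun N => inj_extend (fun i => r i N) (K N) (hPK N)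
  refine ⟨β, hβ1, ?_⟩
  funext i
  have hev : ∀ᶠ N in ((Filter.hyperfilter ℕ : Ultrafilter ℕ) : Filter ℕ), P N (i + 1) := by
    have h1 : ∀ a ∈ Finset.range (i + 1), ∀ c ∈ Finset.range (i + 1),
        ∀ᶠ N in ((Filter.hyperfilter ℕ : Ultrafilter ℕ) : Filter ℕ), r a N = r c N → a = c := by
      intro a _ c _
      by_cases hac : a = c
      · exact Filter.Eventually.of_forall fun _ _ => hac
      · have h2 : ¬ ∀ᶠ N in ((Filter.hyperfilter ℕ : Ultrafilter ℕ) : Filter ℕ), r a N = r c N := by
          intro h3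
          apply hac
          apply hb
          rw [← hr' a, ← hr' c]
          exact (hmk _ _).2 h3
        have h3 := Ultrafilter.eventually_not.2 h2
        exact h3.mono fun N hN h4 => absurd h4 hN
    have h2 : ∀ᶠ N in ((Filter.hyperfilter ℕ : Ultrafilter ℕ) : Filter ℕ),
        ∀ a ∈ Finset.range (i + 1), ∀ c ∈ Finset.range (i + 1), r a N = r c N → a = c := by
      rw [Filter.eventually_all_finset]
      intro a ha
      rw [Filter.eventually_all_finset]
      exact h1 a ha
    refine h2.mono fun N hN a ha c hc => ?_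
    exact hN a (Finset.mem_range.2 ha) c (Finset.mem_range.2 hc)
  have hge : ∀ᶠ N in ((Filter.hyperfilter ℕ : Ultrafilter ℕ) : Filter ℕ), i + 1 ≤ N := by
    have h1 : ∀ᶠ N in (Filter.cofinite : Filter ℕ), i + 1 ≤ N := by
      rw [Nat.cofinite_eq_atTop]
      exact Filter.eventually_ge_atTop (i + 1)
    exact Filter.hyperfilter_le_cofinite h1
  show b i = ((fun N => β N i : ℕ → M) : UP M)
  rw [← hr' i]
  refine (hmk _ _).2 ?_
  filter_upwards [hev, hge] with N h1 h2
  have h3 : i + 1 ≤ K N := Nat.le_findGreatest h2 h1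
  exact (hβ2 N i h3).symm

end Pool.Agent.Helper227.EN
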