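import Pool.Agent.Helper227.ENJ.Defs
import Pool.Agent.Helper227.ENJ.P_up_inj
import Pool.Agent.Helper227.ENJ.P_up_rep
import Pool.Agent.Helper227.ENJ.P_up_Dg

set_option autoImplicit false

open FirstOrder FirstOrder.Language


namespace Pool.Agent.Helper227.EN



theorem up_E_pre_congr {X Y : ℕ → Bool} {n : ℕ} (h : ∀ j < n, X j = Y j) : pre X n = pre Y n := by
  unfold pre
  exact List.map_congr_left fun j hj => h j (List.mem_range.1 hj)

theorem up_E_odd {M : Type} [LA.Structure M] (n : ℕ) (b : ℕ → M) (k : ℕ) :
    E (n + 1) b (2 * k + 1) = true ↔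
      (∃ u : List Bool, (Encodable.decode (Nat.unpair k).2 : Option (List Bool)) = some u ∧
        ∃ b' : ℕ → M, Function.Injective b' ∧ (∀ i < (Nat.unpair k).1, b' i = b i) ∧
          pre (E n b') u.length = u) := by
  classical
  have h : E (n + 1) b = join (E n b) (fun z => open Classical in decide
      (∃ u : List Bool, (Encodable.decode (Nat.unpair z).2 : Option (List Bool)) = some u ∧
        ∃ b' : ℕ → M, Function.Injective b' ∧ (∀ i < (Nat.unpair z).1, b' i = b i) ∧
          pre (E n b') u.length = u)) := rfl
  rw [h, join_odd]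
  exact decide_eq_true_iff

theorem up_E_even {M : Type} [LA.Structure M] (n : ℕ) (b : ℕ → M) (k : ℕ) :
    E (n + 1) b (2 * k) = E n b k := by
  show join (E n b) _ (2 * k) = _
  rw [join_even]

theorem up_E_ups_eq {M : Type} (β β' : ℕ → ℕ → M) (i : ℕ) :
    ups β i = ups β' i ↔ ∀ᶠ N in (Filter.hyperfilter ℕ : Filter ℕ), β N i = β' N i := by
  constructor
  · intro h
    exact Quotient.eq'.1 h
  · intro h
    exact Quotient.sound' h

/-- Los theorem for the level types (uses up_rep, up_inj, up_Dg, E_agree, pos_of_lt, inj_extend) -/
theorem up_E {M : Type} [LA.Structure M] [Infinite M] (n : ℕ) (β : ℕ → ℕ → M)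
    (hβ : ∀ N, Function.Injective (β N)) (z : ℕ) :
    E n (ups β) z = true ↔ ∀ᶠ N in (Filter.hyperfilter ℕ : Filter ℕ), E n (β N) z = true := by
  classical
  induction n generalizing β z with
  | zero => exact up_Dg β z
  | succ n ih =>
    have L1 : ∀ (γ : ℕ → ℕ → M), (∀ N, Function.Injective (γ N)) → ∀ j : ℕ,
        ∀ᶠ N in (Filter.hyperfilter ℕ : Filter ℕ), E n (γ N) j = E n (ups γ) j := by
      intro γ hγ j
      by_cases h : E n (ups γ) j = true
      · rw [h]; exact (ih γ hγ j).1 h
      · have h2 : ¬ ∀ᶠ N in (Filter.hyperfilter ℕ : Filter ℕ), E n (γ N) j = true :=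
          fun h3 => h ((ih γ hγ j).2 h3)
        rw [← Ultrafilter.eventually_not] at h2
        filter_upwards [h2] with N hN
        rw [Bool.not_eq_true] at hN h
        rw [hN, h]
    have L2 : ∀ (γ : ℕ → ℕ → M), (∀ N, Function.Injective (γ N)) → ∀ l : ℕ,
        ∀ᶠ N in (Filter.hyperfilter ℕ : Filter ℕ), pre (E n (γ N)) l = pre (E n (ups γ)) l := by
      intro γ hγ l
      have h1 : ∀ᶠ N in (Filter.hyperfilter ℕ : Filter ℕ), ∀ j ∈ Finset.range l,
          E n (γ N) j = E n (ups γ) j := by
        rw [Filter.eventually_all_finset]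
        intro j _
        exact L1 γ hγ j
      filter_upwards [h1] with N hN
      exact up_E_pre_congr fun j hj => hN j (Finset.mem_range.2 hj)
    rcases Nat.even_or_odd' z with ⟨k, rfl | rfl⟩
    · rw [up_E_even]
      simp only [up_E_even]
      exact ih β hβ k
    · simp only [up_E_odd]
      constructor
      · rintro ⟨u, hu, b', hb', hagree, hpre⟩
        obtain ⟨β', hβ', rfl⟩ := up_rep b' hb'
        have h1 : ∀ᶠ N in (Filter.hyperfilter ℕ : Filter ℕ),
            ∀ i ∈ Finset.range (Nat.unpair k).1, β' N i = β N i := by
          rw [Filter.eventually_all_finset]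
          intro i hi
          exact (up_E_ups_eq β' β i).1 (hagree i (Finset.mem_range.1 hi))
        filter_upwards [h1, L2 β' hβ' u.length] with N hN1 hN2
        exact ⟨u, hu, β' N, hβ' N, fun i hi => hN1 i (Finset.mem_range.2 hi), hN2.trans hpre⟩
      · intro hev
        obtain ⟨N0, u, hu, -⟩ := hev.exists
        set C : ℕ → (ℕ → M) → Prop := fun N b' => Function.Injective b' ∧
          (∀ i < (Nat.unpair k).1, b' i = β N i) ∧ pre (E n b') u.length = u with hC
        set β' : ℕ → ℕ → M := fun N => if h : ∃ b', C N b' then h.choose else β N with hβ'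
        have hev' : ∀ᶠ N in (Filter.hyperfilter ℕ : Filter ℕ), C N (β' N) := by
          filter_upwards [hev] with N hN
          obtain ⟨u', hu', hN'⟩ := hN
          have e : u' = u := by
            rw [hu] at hu'
            exact (Option.some.inj hu').symm
          rw [e] at hN'
          have hex : ∃ b', C N b' := hN'
          have e2 : β' N = hex.choose := by
            rw [hβ']; simp only; rw [dif_pos hex]
          rw [e2]
          exact hex.choose_spec
        have hinj : ∀ N, Function.Injective (β' N) := by
          intro N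
          by_cases hex : ∃ b', C N b'
          · have e2 : β' N = hex.choose := by
              rw [hβ']; simp only; rw [dif_pos hex]
            rw [e2]
            exact hex.choose_spec.1
          · have e2 : β' N = β N := by
              rw [hβ']; simp only; rw [dif_neg hex]
            rw [e2]
            exact hβ N
        refine ⟨u, hu, ups β', up_inj β' hinj, ?_, ?_⟩
        · intro i hi
          rw [up_E_ups_eq]
          filter_upwards [hev'] with N hN
          exact hN.2.1 i hi
        · obtain ⟨N, hN1, hN2⟩ := (hev'.and (L2 β' hinj u.length)).exists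
          rw [← hN2]
          exact hN1.2.2

end Pool.Agent.Helper227.EN
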