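import Pool.Agent.Helper227.ENJ.Defs
import Pool.Agent.Helper227.ENJ.P_up_inj
import Pool.Agent.Helper227.ENJ.P_up_rep
import Pool.Agent.Helper227.ENJ.P_up_E

set_option autoImplicit false

open FirstOrder FirstOrder.Language


namespace Pool.Agent.Helper227.EN



theorem up_Tr_pre {X Y : ℕ → Bool} {n : ℕ} (h : ∀ i < n, X i = Y i) : pre X n = pre Y n := by
  unfold pre
  apply List.map_congr_left
  intro i hi
  exact h i (List.mem_range.mp hi)

theorem up_Tr_ev {M : Type} [LA.Structure M] [Infinite M] (n : ℕ) (β : ℕ → ℕ → M)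
    (hβ : ∀ N, Function.Injective (β N)) (z : ℕ) :
    ∀ᶠ N in (Filter.hyperfilter ℕ : Filter ℕ), E n (β N) z = E n (ups β) z := by
  cases hz : E n (ups β) z with
  | true => exact (up_E n β hβ z).mp hz
  | false =>
    have h1 : ¬ ∀ᶠ N in (Filter.hyperfilter ℕ : Filter ℕ), E n (β N) z = true := by
      intro h
      rw [← up_E n β hβ z, hz] at h
      exact Bool.false_ne_true h
    rw [← Ultrafilter.eventually_not] at h1
    filter_upwards [h1] with N hN
    exact Bool.eq_false_iff.mpr hN

theorem up_Tr {M : Type} [LA.Structure M] [Infinite M] (n : ℕ) : Tr (UP M) n = Tr M n := by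
  funext z
  unfold Tr
  rw [decide_eq_decide]
  constructor
  · rintro ⟨u, hu, b', hb', hpre⟩
    obtain ⟨β, hβ, rfl⟩ := up_rep b' hb'
    have h1 : ∀ᶠ N in (Filter.hyperfilter ℕ : Filter ℕ), ∀ i ∈ Finset.range u.length,
        E n (β N) i = E n (ups β) i := by
      rw [Filter.eventually_all_finset]
      intro i _
      exact up_Tr_ev n β hβ i
    obtain ⟨N, hN⟩ := h1.exists
    refine ⟨u, hu, β N, hβ N, ?_⟩
    refine (up_Tr_pre (n := u.length) ?_).trans hpre
    intro i hi
    exact hN i (Finset.mem_range.mpr hi)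
  · rintro ⟨u, hu, b', hb', hpre⟩
    refine ⟨u, hu, ups (fun _ => b'), up_inj _ (fun _ => hb'), ?_⟩
    refine (up_Tr_pre (n := u.length) ?_).trans hpre
    intro i _
    obtain ⟨N, hN⟩ := (up_Tr_ev n (fun _ => b') (fun _ => hb') i).exists
    exact hN.symm

end Pool.Agent.Helper227.EN
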