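import Pool.Agent.Helper227.ENJ.Defs
import Pool.Agent.Helper227.ENJ.P_up_inj
import Pool.Agent.Helper227.ENJ.P_up_E

set_option autoImplicit false

open FirstOrder FirstOrder.Language


namespace Pool.Agent.Helper227.EN



/-- the ultrapower realises every branch of the tree of `M` -/
theorem up_real {M : Type} [LA.Structure M] [Infinite M] (n : ℕ) (y : ℕ → Bool)
    (h : ∀ s, Tr M n (Encodable.encode (pre y s)) = true) :
    ∃ b : ℕ → UP M, Function.Injective b ∧ E n b = y := by
  classical
  have h1 : ∀ N, ∃ b' : ℕ → M, Function.Injective b' ∧ pre (E n b') N = pre y N := by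
    intro N
    have h2 := h N
    unfold Tr at h2
    rw [decide_eq_true_eq] at h2
    obtain ⟨u, hu, b', hb', hp⟩ := h2
    rw [Encodable.encodek, Option.some.injEq] at hu
    subst hu
    rw [length_pre] at hp
    exact ⟨b', hb', hp⟩
  choose β hβ hp using h1
  refine ⟨ups β, up_inj β hβ, ?_⟩
  funext z
  have hev : ∀ᶠ N in (Filter.hyperfilter ℕ : Filter ℕ), E n (β N) z = y z := by
    have h3 : ∀ᶠ N in (Filter.hyperfilter ℕ : Filter ℕ), z < N :=
      Nat.hyperfilter_le_atTop (Filter.eventually_gt_atTop z)
    filter_upwards [h3] with N hN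
    have h4 := congrArg (fun l => l.getD z false) (hp N)
    beta_reduce at h4
    rw [pre_getD _ _ _ _ hN, pre_getD _ _ _ _ hN] at h4
    exact h4
  rw [Bool.eq_iff_iff, up_E n β hβ z]
  constructor
  · intro h5
    obtain ⟨N, h6, h7⟩ := (h5.and hev).exists
    rw [← h7]
    exact h6
  · intro h5
    filter_upwards [hev] with N hN
    rw [hN]
    exact h5

end Pool.Agent.Helper227.EN
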