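import Pool.Agent.Helper227.ENJ.P_E_agree
import Pool.Agent.Helper227.ENJ.P_E_col
import Pool.Agent.Helper227.ENJ.P_E_low
import Pool.Agent.Helper227.ENJ.P_agree_down
import Pool.Agent.Helper227.ENJ.P_beta_exists
import Pool.Agent.Helper227.ENJ.P_beta_unique
import Pool.Agent.Helper227.ENJ.P_dfn_all
import Pool.Agent.Helper227.ENJ.P_dfn_beta
import Pool.Agent.Helper227.ENJ.P_dfn_bool
import Pool.Agent.Helper227.ENJ.P_dfn_ex
import Pool.Agent.Helper227.ENJ.P_dfn_subst
import Pool.Agent.Helper227.ENJ.P_edef_exval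
import Pool.Agent.Helper227.ENJ.P_edef_formula
import Pool.Agent.Helper227.ENJ.P_edef_ops
import Pool.Agent.Helper227.ENJ.P_edef_raise
import Pool.Agent.Helper227.ENJ.P_edef_term
import Pool.Agent.Helper227.ENJ.P_hs_step
import Pool.Agent.Helper227.ENJ.P_inj_extend
import Pool.Agent.Helper227.ENJ.P_inj_put
import Pool.Agent.Helper227.ENJ.P_limit_structure
import Pool.Agent.Helper227.ENJ.P_path_def
import Pool.Agent.Helper227.ENJ.P_pos_of_lt
import Pool.Agent.Helper227.ENJ.P_repE
import Pool.Agent.Helper227.ENJ.P_repE_blk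
import Pool.Agent.Helper227.ENJ.P_repE_zero
import Pool.Agent.Helper227.ENJ.P_repF_comp2
import Pool.Agent.Helper227.ENJ.P_repF_pair
import Pool.Agent.Helper227.ENJ.P_repF_prec
import Pool.Agent.Helper227.ENJ.P_repF_primrec
import Pool.Agent.Helper227.ENJ.P_repM_join
import Pool.Agent.Helper227.ENJ.P_repTr
import Pool.Agent.Helper227.ENJ.P_rep_class
import Pool.Agent.Helper227.ENJ.P_rep_path
import Pool.Agent.Helper227.ENJ.P_rep_pre
import Pool.Agent.Helper227.ENJ.P_rep_str
import Pool.Agent.Helper227.ENJ.P_sp_nonstd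
import Pool.Agent.Helper227.ENJ.P_sp_real
import Pool.Agent.Helper227.ENJ.P_sp_std
import Pool.Agent.Helper227.ENJ.P_std_below
import Pool.Agent.Helper227.ENJ.P_trm_ops
import Pool.Agent.Helper227.ENJ.P_up_Dg
import Pool.Agent.Helper227.ENJ.P_up_E
import Pool.Agent.Helper227.ENJ.P_up_Tr
import Pool.Agent.Helper227.ENJ.P_up_inj
import Pool.Agent.Helper227.ENJ.P_up_real
import Pool.Agent.Helper227.ENJ.P_up_rep
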