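import Pool.Agent.Helper227.ENJ.Defs

set_option autoImplicit false

open FirstOrder FirstOrder.Language


namespace Pool.Agent.Helper227.EN



theorem E_agree_Dg {M : Type} [LA.Structure M] (b b' : ℕ → M) (k : ℕ) (h : ∀ i < k, b' i = b i)
    (z : ℕ) (hz : z < k) : Dg b' z = Dg b z := by
  have e2 : (Nat.unpair z).2 ≤ z := Nat.unpair_right_le z
  have ei : (Nat.unpair (Nat.unpair z).2).1 ≤ z := (Nat.unpair_left_le _).trans e2
  have e3 : (Nat.unpair (Nat.unpair z).2).2 ≤ z := (Nat.unpair_right_le _).trans e2
  have ej : (Nat.unpair (Nat.unpair (Nat.unpair z).2).2).1 ≤ z := (Nat.unpair_left_le _).trans e3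
  have el : (Nat.unpair (Nat.unpair (Nat.unpair z).2).2).2 ≤ z := (Nat.unpair_right_le _).trans e3
  have hi := h _ (ei.trans_lt hz)
  have hj := h _ (ej.trans_lt hz)
  have hl := h _ (el.trans_lt hz)
  simp only [Dg]
  rw [hi, hj, hl]

/-- bits at positions in `Pos n k` depend only on the first `k` elements -/
theorem E_agree {M : Type} [LA.Structure M] (b b' : ℕ → M) (k : ℕ) (h : ∀ i < k, b' i = b i)
    (n z : ℕ) (hz : Pos n k z) : E n b' z = E n b z := by
  induction n generalizing z with
  | zero => exact E_agree_Dg b b' k h z hz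
  | succ n ih =>
    rcases hz with ⟨h0, h1⟩ | ⟨h0, h1⟩
    · simp only [E, join, h0, if_true]
      exact ih _ h1
    · have h2 : ¬ (z % 2 = 0) := by omega
      simp only [E, join, if_neg h2]
      congr 1
      apply propext
      have key : ∀ b'' : ℕ → M, (∀ i < (Nat.unpair (z / 2)).1, b'' i = b' i) ↔
          (∀ i < (Nat.unpair (z / 2)).1, b'' i = b i) := by
        intro b''
        constructor
        · intro H i hi
          rw [H i hi, h i (lt_of_lt_of_le hi h1)]
        · intro H i hi
          rw [H i hi, h i (lt_of_lt_of_le hi h1)]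
      simp only [key]

end Pool.Agent.Helper227.EN
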