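import Pool.Agent.Helper227.ENJ.Defs

set_option autoImplicit false

open FirstOrder FirstOrder.Language


namespace Pool.Agent.Helper227.EN



theorem Dg_cd3 {M : Type} [LA.Structure M] {b : ℕ → M} {i : ℕ} (h : Dg b (cd 3 i 0 0) = true) :
    Structure.funMap (L := LA) AF.zero ![] = b i := by
  simpa [Dg, cd] using h

theorem Dg_cd4 {M : Type} [LA.Structure M] {b : ℕ → M} {i : ℕ} (h : Dg b (cd 4 i 0 0) = true) :
    Structure.funMap (L := LA) AF.one ![] = b i := by
  simpa [Dg, cd] using h

theorem Dg_cd0 {M : Type} [LA.Structure M] {b : ℕ → M} {i j l : ℕ}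
    (h : Dg b (cd 0 i j l) = true) :
    Structure.funMap (L := LA) AF.add ![b i, b j] = b l := by
  simpa [Dg, cd] using h

theorem num_val {M : Type} [LA.Structure M] {b : ℕ → M} {L : List ℕ} {j : ℕ}
    (h0 : Structure.funMap (L := LA) AF.zero ![] = b (L.getD 0 0))
    (h1 : Structure.funMap (L := LA) AF.one ![] = b j)
    (h2 : ∀ i, i + 1 < L.length →
      Structure.funMap (L := LA) AF.add ![b (L.getD i 0), b j] = b (L.getD (i + 1) 0))
    (i : ℕ) (hi : i < L.length) :
    b (L.getD i 0) = (num i : LA.Term Empty).realize (default : Empty → M) := by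
  induction i with
  | zero =>
    rw [← h0]
    show _ = Structure.funMap (L := LA) AF.zero _
    congr 1
    exact Subsingleton.elim _ _
  | succ i ih =>
    rw [← h2 i hi, ih (by omega)]
    show _ = (Functions.apply₂ (L := LA) AF.add (num i) t1).realize _
    rw [Term.realize_functions_apply₂]
    congr 1
    have e : (t1 : LA.Term Empty).realize (default : Empty → M) = b j := by
      rw [← h1]
      show Structure.funMap (L := LA) AF.one _ = _
      congr 1
      exact Subsingleton.elim _ _
    rw [e]

/-- the ultrapower has a nonstandard element -/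
theorem sp_nonstd {M : Type} [LA.Structure M]
    (hi : Function.Injective (fun m : ℕ => (num m : LA.Term Empty).realize (default : Empty → M))) :
    ∃ x : UP M, ∀ b : ℕ → UP M, b 0 = x → ¬ SP (Dg b) := by
  refine ⟨((fun N => (num N : LA.Term Empty).realize (default : Empty → M) : ℕ → M) : UP M), ?_⟩
  rintro b hb ⟨L, j, h0, h1, h2, h3⟩
  have hne : L ≠ [] := by
    rintro rfl
    simp at h3
  have hlen : 0 < L.length := List.length_pos_iff.2 hne
  have h4 : L.getD (L.length - 1) 0 = 0 := by
    rw [List.getLast?_eq_getElem?] at h3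
    rw [List.getD_eq_getElem?_getD, h3]
    rfl
  have h5 := num_val (Dg_cd3 h0) (Dg_cd4 h1) (fun i hi => Dg_cd0 (h2 i hi)) (L.length - 1)
    (by omega)
  rw [h4, hb] at h5
  set m := L.length - 1
  have h6 : (num m : LA.Term Empty).realize (default : Empty → UP M) =
      ((fun _ => (num m : LA.Term Empty).realize (default : Empty → M) : ℕ → M) : UP M) := by
    have h7 := Ultraproduct.term_realize_cast (L := LA) (u := Filter.hyperfilter ℕ)
      (M := fun _ : ℕ => M) (x := fun (i : Empty) (_ : ℕ) => (i.elim : M))
      (num m : LA.Term Empty)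
    have e1 : (default : Empty → UP M) = fun i : Empty =>
        (((fun (i : Empty) (_ : ℕ) => (i.elim : M)) i : ℕ → M) : UP M) := Subsingleton.elim _ _
    rw [e1]
    refine h7.trans ?_
    congr 1
    funext N
    congr 1
    exact Subsingleton.elim _ _
  rw [h6] at h5
  have h8 : ∀ᶠ N in ((Filter.hyperfilter ℕ : Ultrafilter ℕ) : Filter ℕ),
      (num N : LA.Term Empty).realize (default : Empty → M) =
        (num m : LA.Term Empty).realize (default : Empty → M) := Quotient.exact h5
  have h9 : {N : ℕ | N = m} ∈ ((Filter.hyperfilter ℕ : Ultrafilter ℕ) : Filter ℕ) :=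
    h8.mono fun N hN => hi hN
  exact Filter.notMem_hyperfilter_of_finite (Set.finite_singleton m) h9

end Pool.Agent.Helper227.EN
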